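import Pool.Agent.Lib.MP_89fcdb_gt.H83.Cup

/-!
# MP_89fcdb_gt: invariant mod 2 cochains of a space with an involution

For a free involution `τ` the complex of the `τ`-invariant cochains of `X` computes the mod 2
cohomology of `X/τ`.
-/

open scoped BigOperators
open Finset

namespace Pool.Agent.Lib.MP_89fcdb_gt.H83

open Pool.Agent.Lib.MP_904b2a_gt

noncomputable section

variable {X Y : Type} [TopologicalSpace X] [TopologicalSpace Y]

/-- The cochains invariant under `τ`. -/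
def inv (τ : C(X, X)) (n : ℕ) : AddSubgroup (Coch n X F2) where
  carrier := {φ | pbC n τ φ = φ}
  zero_mem' := map_zero _
  add_mem' := fun {a b} ha hb => by
    change pbC n τ (a + b) = a + b
    rw [map_add, show pbC n τ a = a from ha, show pbC n τ b = b from hb]
  neg_mem' := fun {a} ha => by
    change pbC n τ (-a) = -a
    rw [map_neg, show pbC n τ a = a from ha]

variable {τ : C(X, X)} {τ' : C(Y, Y)}

theorem mem_inv {n : ℕ} {φ : Coch n X F2} : φ ∈ inv τ n ↔ pbC n τ φ = φ := Iff.rfl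

theorem cob_mem_inv {n : ℕ} {φ : Coch n X F2} (h : φ ∈ inv τ n) : cob n φ ∈ inv τ (n + 1) := by
  rw [mem_inv, pbC_cob, mem_inv.1 h]

theorem cu_mem_inv {p q n : ℕ} {φ : Coch p X F2} {ψ : Coch q X F2} (h : φ ∈ inv τ p)
    (h' : ψ ∈ inv τ q) : cu p q n φ ψ ∈ inv τ n := by
  rw [mem_inv, pbC_cu, mem_inv.1 h, mem_inv.1 h']

theorem one0_mem_inv : (one0 : Coch 0 X F2) ∈ inv τ 0 := rfl

theorem pwr_mem_inv {a : Coch 1 X F2} (h : a ∈ inv τ 1) (k : ℕ) : pwr a k ∈ inv τ k := by
  rw [mem_inv, pbC_pwr, mem_inv.1 h]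

theorem pbC_mem_inv {n : ℕ} {f : C(X, Y)} (hf : f.comp τ = τ'.comp f) {φ : Coch n Y F2}
    (h : φ ∈ inv τ' n) : pbC n f φ ∈ inv τ n := by
  funext σ
  change φ ((f.comp τ).comp σ) = φ (f.comp σ)
  rw [hf]
  exact congrFun (mem_inv.1 h) (f.comp σ)

variable (τ) in
/-- The coboundaries of invariant cochains. -/
def invB : ∀ n : ℕ, AddSubgroup (Coch n X F2)
  | 0 => ⊥
  | (n + 1) => (inv τ n).map (cob n)

theorem mem_invB_succ {n : ℕ} {φ : Coch (n + 1) X F2} :
    φ ∈ invB τ (n + 1) ↔ ∃ ψ ∈ inv τ n, cob n ψ = φ := Iff.rfl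

theorem invB_le_inv (n : ℕ) : invB τ n ≤ inv τ n := by
  cases n with
  | zero => exact bot_le
  | succ n =>
    rintro _ ⟨φ, hφ, rfl⟩
    exact cob_mem_inv hφ

theorem invB_le_coboundaries (n : ℕ) : invB τ n ≤ coboundaries X F2 n := by
  cases n with
  | zero => exact bot_le
  | succ n =>
    rintro _ ⟨φ, -, rfl⟩
    exact ⟨φ, rfl⟩

theorem cob_of_mem_invB {n : ℕ} {φ : Coch n X F2} (h : φ ∈ invB τ n) : cob n φ = 0 :=
  coboundaries_le n (invB_le_coboundaries n h)

theorem pbC_mem_invB {n : ℕ} {f : C(X, Y)} (hf : f.comp τ = τ'.comp f) {φ : Coch n Y F2}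
    (h : φ ∈ invB τ' n) : pbC n f φ ∈ invB τ n := by
  cases n with
  | zero =>
    have h0 : φ = 0 := h
    rw [h0, map_zero]
    exact zero_mem _
  | succ n =>
    obtain ⟨ψ, hψ, rfl⟩ := h
    exact ⟨pbC n f ψ, pbC_mem_inv hf hψ, (pbC_cob n f ψ).symm⟩

theorem cu_mem_invB_left {p q n : ℕ} (h : p + q = n) {φ : Coch p X F2} {ψ : Coch q X F2}
    (hφ : φ ∈ invB τ p) (hψ : ψ ∈ inv τ q) (hc : cob q ψ = 0) : cu p q n φ ψ ∈ invB τ n := by
  subst h
  cases p with
  | zero =>
    have h0 : φ = 0 := hφ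
    rw [h0, cu_zero_left]
    exact zero_mem _
  | succ p =>
    obtain ⟨η, hη, rfl⟩ := hφ
    have e := cob_cu (p := p) (q := q) (n := p + q) rfl η ψ
    rw [hc, cu_zero_right, add_zero] at e
    have h2 : p + 1 + q = (p + q) + 1 := by omega
    rw [h2]
    exact ⟨cu p q (p + q) η ψ, cu_mem_inv hη hψ, e⟩

theorem cu_mem_invB_right {p q n : ℕ} (h : p + q = n) {φ : Coch p X F2} {ψ : Coch q X F2}
    (hφ : φ ∈ inv τ p) (hc : cob p φ = 0) (hψ : ψ ∈ invB τ q) : cu p q n φ ψ ∈ invB τ n := by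
  subst h
  cases q with
  | zero =>
    have h0 : ψ = 0 := hψ
    rw [h0, cu_zero_right]
    exact zero_mem _
  | succ q =>
    obtain ⟨η, hη, rfl⟩ := hψ
    have e := cob_cu (p := p) (q := q) (n := p + q) rfl φ η
    rw [hc, cu_zero_left, zero_add] at e
    exact ⟨cu p q (p + q) φ η, cu_mem_inv hφ hη, e⟩

theorem norm_mem_inv (hτ : τ.comp τ = ContinuousMap.id X) {n : ℕ} (φ : Coch n X F2) :
    φ + pbC n τ φ ∈ inv τ n := by
  have h : pbC n τ (pbC n τ φ) = φ := by
    funext σ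
    change φ ((τ.comp τ).comp σ) = φ σ
    rw [hτ, ContinuousMap.id_comp]
  rw [mem_inv, map_add, h, add_comm]

/-! ### Half cochains and the transfer sequence -/

variable (τ) in
/-- `s + τ s = 1`. -/
def Half (s : Coch 0 X F2) : Prop := s + pbC 0 τ s = one0

theorem exists_half (hτ : τ.comp τ = ContinuousMap.id X) (hf : ∀ x, τ x ≠ x) :
    ∃ s : Coch 0 X F2, Half τ s := by
  classical
  have h2 : ∀ x, τ (τ x) = x := fun x => congrArg (fun f : C(X, X) => f x) hτ
  let S : Setoid X :=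
    { r := fun x y => x = y ∨ x = τ y
      iseqv := by
        refine ⟨fun x => Or.inl rfl, ?_, ?_⟩
        · rintro x y (h | h)
          · exact Or.inl h.symm
          · right
            rw [h, h2]
        · rintro x y z (h | h) (h' | h')
          · exact Or.inl (h.trans h')
          · exact Or.inr (h.trans h')
          · right
            rw [h, h']
          · left
            rw [h, h', h2] }
  let q : X → Quotient S := fun x => Quotient.mk S x
  have hq : ∀ x, q (τ x) = q x := fun x => Quotient.sound (Or.inr rfl)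
  let s0 : X → F2 := fun x => if (q x).out = x then 1 else 0
  have hs : ∀ x, s0 x + s0 (τ x) = 1 := by
    intro x
    have h1 : (q x).out = x ∨ (q x).out = τ x := Quotient.exact (Quotient.out_eq (q x))
    simp only [s0, hq]
    rcases h1 with h | h
    · rw [if_pos h, if_neg (by rw [h]; exact (hf x).symm), add_zero]
    · rw [if_pos h, if_neg (by rw [h]; exact hf x), zero_add]
  refine ⟨fun σ => s0 (σ (stdSimplex.vertex 0)), ?_⟩
  funext σ
  exact hs _

theorem Half.pb {s : Coch 0 Y F2} (h : Half τ' s) {f : C(X, Y)} (hf : f.comp τ = τ'.comp f) :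
    Half τ (pbC 0 f s) := by
  funext σ
  change s (f.comp σ) + s ((f.comp τ).comp σ) = 1
  rw [hf]
  exact congrFun h (f.comp σ)

theorem Half.pbC_eq {s : Coch 0 X F2} (h : Half τ s) : pbC 0 τ s = s + one0 := by
  rw [← show s + pbC 0 τ s = one0 from h, ← add_assoc, coch_add_self]
  exact (zero_add _).symm

theorem Half.cob_mem {s : Coch 0 X F2} (h : Half τ s) : cob 0 s ∈ inv τ 1 := by
  rw [mem_inv, pbC_cob, h.pbC_eq, map_add, cob_one0, add_zero]

theorem Half.add_mem {s s' : Coch 0 X F2} (h : Half τ s) (h' : Half τ s') : s + s' ∈ inv τ 0 := by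
  rw [mem_inv, map_add, h.pbC_eq, h'.pbC_eq]
  calc s + one0 + (s' + one0) = s + s' + (one0 + one0) := by abel
    _ = s + s' := by rw [coch_add_self, add_zero]

theorem Half.norm_cu {s : Coch 0 X F2} (h : Half τ s) {k : ℕ} {y : Coch k X F2}
    (hy : y ∈ inv τ k) : cu k 0 k y s + pbC k τ (cu k 0 k y s) = y := by
  rw [pbC_cu, mem_inv.1 hy, ← cu_add_right, show s + pbC 0 τ s = one0 from h, cu_one0]

theorem cob_cu_half {s : Coch 0 X F2} {k : ℕ} {y : Coch k X F2} (hy : cob k y = 0) :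
    cob k (cu k 0 k y s) = cu k 1 (k + 1) y (cob 0 s) := by
  have e := cob_cu (p := k) (q := 0) (n := k) rfl y s
  rw [e, hy, cu_zero_left, zero_add]

theorem mem_inv_of_norm {k : ℕ} {φ : Coch k X F2} (h : φ + pbC k τ φ = 0) : φ ∈ inv τ k := by
  rw [mem_inv]
  calc pbC k τ φ = φ + (φ + pbC k τ φ) := by rw [← add_assoc, coch_add_self, zero_add]
    _ = φ := by rw [h, add_zero]

/-- Exactness: an invariant cocycle which is a coboundary is, up to the coboundary of an invariant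
cochain, a multiple of `w`. -/
theorem Half.exact1 (hτ : τ.comp τ = ContinuousMap.id X) {s : Coch 0 X F2} (h : Half τ s) {k : ℕ}
    {z : Coch (k + 1) X F2} (hz : z ∈ inv τ (k + 1)) {φ : Coch k X F2} (e : cob k φ = z) :
    ∃ y ∈ inv τ k, cob k y = 0 ∧ z + cu k 1 (k + 1) y (cob 0 s) ∈ invB τ (k + 1) := by
  have hy := norm_mem_inv hτ φ
  have hc : cob k (φ + pbC k τ φ) = 0 := by
    rw [map_add, ← pbC_cob, e, mem_inv.1 hz, coch_add_self]
  refine ⟨φ + pbC k τ φ, hy, hc, φ + cu k 0 k (φ + pbC k τ φ) s, ?_, ?_⟩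
  · apply mem_inv_of_norm
    have h1 := h.norm_cu hy
    set Q := cu k 0 k (φ + pbC k τ φ) s
    rw [map_add]
    calc φ + Q + (pbC k τ φ + pbC k τ Q) = φ + pbC k τ φ + (Q + pbC k τ Q) := by abel
      _ = 0 := by rw [h1, coch_add_self]
  · rw [map_add, e, cob_cu_half hc]

/-- Exactness: a cocycle whose norm is the coboundary of an invariant cochain is cohomologous to an
invariant cocycle. -/
theorem Half.exact2 {s : Coch 0 X F2} (h : Half τ s) {k : ℕ} {x : Coch k X F2}
    (hx : cob k x = 0) (hn : x + pbC k τ x ∈ invB τ k) :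
    ∃ x' ∈ inv τ k, cob k x' = 0 ∧ x + x' ∈ coboundaries X F2 k := by
  cases k with
  | zero =>
    have h0 : x + pbC 0 τ x = 0 := hn
    refine ⟨x, mem_inv_of_norm h0, hx, ?_⟩
    rw [coch_add_self]
    exact zero_mem _
  | succ k =>
    obtain ⟨ψ, hψ, e⟩ := hn
    refine ⟨x + cob k (cu k 0 k ψ s), ?_, ?_, ?_⟩
    · apply mem_inv_of_norm
      have h1 := h.norm_cu hψ
      set Q := cu k 0 k ψ s
      rw [map_add, pbC_cob]
      calc x + cob k Q + (pbC (k + 1) τ x + cob k (pbC k τ Q))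
          = x + pbC (k + 1) τ x + (cob k Q + cob k (pbC k τ Q)) := by abel
        _ = 0 := by rw [← map_add, h1, ← e, coch_add_self]
    · rw [map_add, hx, cob_cob, add_zero]
    · rw [← add_assoc, coch_add_self, zero_add]
      exact ⟨_, rfl⟩

/-- Exactness: if `y w` is the coboundary of an invariant cochain then `y` is a norm. -/
theorem Half.exact3 {s : Coch 0 X F2} (h : Half τ s) {k : ℕ} {y : Coch k X F2}
    (hy : y ∈ inv τ k) (hc : cob k y = 0)
    (hn : cu k 1 (k + 1) y (cob 0 s) ∈ invB τ (k + 1)) :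
    ∃ x : Coch k X F2, cob k x = 0 ∧ x + pbC k τ x = y := by
  obtain ⟨ψ, hψ, e⟩ := hn
  refine ⟨cu k 0 k y s + ψ, ?_, ?_⟩
  · rw [map_add, cob_cu_half hc, e, coch_add_self]
  · have h1 := h.norm_cu hy
    set Q := cu k 0 k y s
    rw [map_add, mem_inv.1 hψ]
    calc Q + ψ + (pbC k τ Q + ψ) = Q + pbC k τ Q + (ψ + ψ) := by abel
      _ = y := by rw [h1, coch_add_self, add_zero]

/-- The product of a norm with `w` is the coboundary of an invariant cochain. -/
theorem Half.norm_mul (hτ : τ.comp τ = ContinuousMap.id X) {s : Coch 0 X F2} (h : Half τ s)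
    {k : ℕ} {x : Coch k X F2} (hx : cob k x = 0) :
    cu k 1 (k + 1) (x + pbC k τ x) (cob 0 s) ∈ invB τ (k + 1) := by
  have hy := norm_mem_inv hτ x
  have hc : cob k (x + pbC k τ x) = 0 := by
    rw [map_add, ← pbC_cob, hx, map_zero, add_zero]
  refine ⟨x + cu k 0 k (x + pbC k τ x) s, ?_, ?_⟩
  · apply mem_inv_of_norm
    have h1 := h.norm_cu hy
    set Q := cu k 0 k (x + pbC k τ x) s
    rw [map_add]
    calc x + Q + (pbC k τ x + pbC k τ Q) = x + pbC k τ x + (Q + pbC k τ Q) := by abel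
      _ = 0 := by rw [h1, coch_add_self]
  · rw [map_add, hx, zero_add, cob_cu_half hc]

/-- The norm of a coboundary is the coboundary of an invariant cochain. -/
theorem norm_cob (hτ : τ.comp τ = ContinuousMap.id X) {k : ℕ} {x : Coch k X F2}
    (hx : x ∈ coboundaries X F2 k) : x + pbC k τ x ∈ invB τ k := by
  cases k with
  | zero =>
    have h0 : x = 0 := hx
    rw [h0, map_zero, add_zero]
    exact zero_mem _
  | succ k =>
    obtain ⟨φ, rfl⟩ := hx
    exact ⟨φ + pbC k τ φ, norm_mem_inv hτ φ, by rw [map_add, pbC_cob]⟩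

/-! ### Equivariant homotopies -/

theorem prismH_equiv {f₀ f₁ : C(X, Y)} (F : f₀.Homotopy f₁)
    (hF : ∀ t x, F (t, τ x) = τ' (F (t, x))) (n j : ℕ) (σ : C(Simp n, X)) :
    prismH F n j (τ.comp σ) = τ'.comp (prismH F n j σ) := by
  ext t
  exact hF _ _

theorem prismC_mem_inv {f₀ f₁ : C(X, Y)} (F : f₀.Homotopy f₁)
    (hF : ∀ t x, F (t, τ x) = τ' (F (t, x))) {n : ℕ} {φ : Coch (n + 1) Y F2}
    (h : φ ∈ inv τ' (n + 1)) : prismC F n φ ∈ inv τ n := by
  funext σ
  change prismC F n φ (τ.comp σ) = prismC F n φ σ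
  simp only [prismC]
  refine sum_congr rfl fun j _ => ?_
  rw [prismH_equiv F hF]
  congr 1
  exact congrFun (mem_inv.1 h) (prismH F n j σ)

theorem pbC_add_mem_invB {f₀ f₁ : C(X, Y)} (F : f₀.Homotopy f₁)
    (hF : ∀ t x, F (t, τ x) = τ' (F (t, x))) {n : ℕ} {z : Coch n Y F2} (hz : z ∈ inv τ' n)
    (hc : cob n z = 0) : pbC n f₀ z + pbC n f₁ z ∈ invB τ n := by
  cases n with
  | zero =>
    have h := prismC_zero_formula F z
    rw [hc, coch_sub] at h
    have h0 : prismC F 0 (0 : Coch 1 Y F2) = 0 := by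
      funext σ
      simp [prismC]
    rw [h0] at h
    rw [add_comm (pbC 0 f₀ z), ← h]
    exact zero_mem _
  | succ n =>
    have h := prismC_formula F n z
    rw [hc, coch_sub] at h
    have h0 : prismC F (n + 1) (0 : Coch (n + 2) Y F2) = 0 := by
      funext σ
      simp [prismC]
    rw [h0, zero_add] at h
    rw [add_comm (pbC (n + 1) f₀ z), ← h]
    exact ⟨_, prismC_mem_inv F hF hz, rfl⟩

/-! ### The vocabulary of `Invol` -/

theorem Invol.comp_self (T : Invol X) : T.τ.comp T.τ = ContinuousMap.id X := by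
  ext x
  exact T.sq x

theorem isInv_iff (T : Invol X) {n : ℕ} {φ : Coch n X F2} : T.IsInv φ ↔ φ ∈ inv T.τ n :=
  ⟨fun h => funext h, fun h σ => congrFun h σ⟩

theorem bi_iff (T : Invol X) {n : ℕ} {φ : Coch (n + 1) X F2} :
    T.BI φ ↔ φ ∈ invB T.τ (n + 1) := by
  constructor
  · rintro ⟨ψ, h1, h2⟩
    exact ⟨ψ, (isInv_iff T).1 h1, h2⟩
  · rintro ⟨ψ, h1, h2⟩
    exact ⟨ψ, (isInv_iff T).2 h1, h2⟩

theorem sep_iff (T : Invol X) {s : Coch 0 X F2} : T.Sep s ↔ Half T.τ s := by
  constructor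
  · intro h
    funext σ
    change s σ + s (T.τ.comp σ) = 1
    rw [h σ, ← add_assoc, add_self_F2, zero_add]
  · intro h σ
    have h1 : s σ + s (T.τ.comp σ) = 1 := congrFun h σ
    have h2 : ∀ a b : F2, a + b = 1 → b = a + 1 := by decide
    exact h2 _ _ h1

end

end Pool.Agent.Lib.MP_89fcdb_gt.H83
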