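import Pool.Agent.Lib.MP_89fcdb_gt.H83.Core
import Pool.Agent.Lib.MP_89fcdb_gt.H45.Bridge

/-!
# MP_89fcdb_gt: the statement CORE of the interfaces
-/

namespace Pool.Agent.Lib.MP_89fcdb_gt.H83

/-- **Module CORE**, in the form of the interfaces. -/
theorem coreStatement : CoreStatement :=
  coreStatement_of (fun φ h => core φ (fun p => h p (tauP p) rfl rfl))

end Pool.Agent.Lib.MP_89fcdb_gt.H83
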