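import Pool.Agent.Lib.MP_89fcdb_gt.H83.NC
import Pool.Agent.Lib.MP_89fcdb_gt.H27.L1

/-!
# MP_89fcdb_gt, module CORE: the end of the proof of the lower bound
-/

open scoped BigOperators
open Set Topology

namespace Pool.Agent.Lib.MP_89fcdb_gt.H83

open Pool.Agent.Lib.MP_904b2a_gt
open Pool.Agent.Lib.MP_89fcdb_gt.H74 (PP V3 Sp uu Fib fibIncl KK)

noncomputable section

section General

variable {X Y : Type} [TopologicalSpace X] [TopologicalSpace Y]

theorem pb_const_eq_zero (y : Y) (k : ℕ) (u : H (k + 1) Y F2) :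
    H.pb (ContinuousMap.const X y) u = 0 := by
  have e : ContinuousMap.const X y =
      (ContinuousMap.const Unit y).comp (ContinuousMap.const X ()) := rfl
  rw [e, ← H.pb_comp, H.eq_zero_of_subsingleton k (H.pb (ContinuousMap.const Unit y) u), map_zero]

theorem pb_null {f : C(X, Y)} (h : f.Nullhomotopic) (k : ℕ) (u : H (k + 1) Y F2) :
    H.pb f u = 0 := by
  obtain ⟨y, hy⟩ := h
  rw [H.pb_eq_of_homotopic hy, pb_const_eq_zero]

theorem mem_invB_id {n : ℕ} {φ : Coch n X F2} :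
    φ ∈ invB (ContinuousMap.id X) n ↔ φ ∈ coboundaries X F2 n := by
  cases n with
  | zero => exact Iff.rfl
  | succ n =>
    constructor
    · exact fun h => invB_le_coboundaries _ h
    · rintro ⟨ψ, hψ⟩
      exact ⟨ψ, rfl, hψ⟩

theorem cu_mem_cobdry_left {p q n : ℕ} (h : p + q = n) {φ : Coch p X F2} {ψ : Coch q X F2}
    (hφ : φ ∈ coboundaries X F2 p) (hc : cob q ψ = 0) : cu p q n φ ψ ∈ coboundaries X F2 n :=
  mem_invB_id.1 (cu_mem_invB_left h (mem_invB_id.2 hφ) rfl hc)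

theorem cu_mem_cobdry_right {p q n : ℕ} (h : p + q = n) {φ : Coch p X F2} {ψ : Coch q X F2}
    (hc : cob p φ = 0) (hψ : ψ ∈ coboundaries X F2 q) : cu p q n φ ψ ∈ coboundaries X F2 n :=
  mem_invB_id.1 (cu_mem_invB_right h rfl hc (mem_invB_id.2 hψ))

/-- A cocycle which is a coboundary on `S` can be changed by a coboundary so that it vanishes on
`S`. -/
theorem exists_vanish {S : Set X} {k : ℕ} {α : Coch (k + 1) X F2}
    (h : pbC (k + 1) (incl S) α ∈ coboundaries S F2 (k + 1)) :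
    ∃ η : Coch k X F2, ∀ σ, InS S σ → (α + cob k η) σ = 0 := by
  obtain ⟨η, hη⟩ := h
  refine ⟨ext0 S η, fun σ hσ => ?_⟩
  rw [Pi.add_apply, cob_ext0 η hσ, hη]
  exact add_self_F2 _

/-- The cup product of a class which vanishes on `U` and a class which vanishes on `W`. -/
theorem cu_mem_of_cover {U W : Set X} (hU : IsOpen U) (hW : IsOpen W) (hc : U ∪ W = univ)
    {p q n : ℕ} (h : p + 1 + (q + 1) = n + 1) {α : Coch (p + 1) X F2} {x : Coch (q + 1) X F2}
    (hα : cob (p + 1) α = 0) (hx : cob (q + 1) x = 0)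
    (h1 : pbC (p + 1) (incl U) α ∈ coboundaries U F2 (p + 1))
    (h2 : pbC (q + 1) (incl W) x ∈ coboundaries W F2 (q + 1)) :
    cu (p + 1) (q + 1) (n + 1) α x ∈ coboundaries X F2 (n + 1) := by
  obtain ⟨η, hη⟩ := exists_vanish h1
  obtain ⟨θ, hθ⟩ := exists_vanish h2
  have ha : cob (p + 1) (α + cob p η) = 0 := by rw [map_add, hα, cob_cob, add_zero]
  have hb : cob (q + 1) (x + cob q θ) = 0 := by rw [map_add, hx, cob_cob, add_zero]
  have key : cu (p + 1) (q + 1) (n + 1) (α + cob p η) (x + cob q θ) ∈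
      coboundaries X F2 (n + 1) := by
    have hz : cu (p + 1) (q + 1) (n + 1) (α + cob p η) (x + cob q θ) ∈ cocycles X F2 (n + 1) := by
      change cob (n + 1) _ = 0
      rw [cob_cu h, ha, hb, cu_zero_left, cu_zero_right, add_zero]
    obtain ⟨ψ, hψ, -⟩ := H41.exists_primitive (H41.two U W) (H41.isOpen_two hU hW)
      (H41.iUnion_two hc) _ hz 0 (fun σ hσ => by
        rw [map_zero]
        rcases H41.mem_small_two.1 hσ with h3 | h3
        · have h4 : InS U σ := inS_iff_range.2 h3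
          change (α + cob p η) _ * _ = 0
          rw [hη _ (h4.comp _), zero_mul]
        · have h4 : InS W σ := inS_iff_range.2 h3
          change _ * (x + cob q θ) _ = 0
          rw [hθ _ (h4.comp _), mul_zero])
    exact ⟨ψ, hψ⟩
  have h3 := cu_mem_cobdry_left (n := n + 1) h (φ := cob p η) (ψ := x) ⟨η, rfl⟩ hx
  have h4 := cu_mem_cobdry_right (n := n + 1) h (φ := α + cob p η) (ψ := cob q θ) ha ⟨θ, rfl⟩
  have e : cu (p + 1) (q + 1) (n + 1) (α + cob p η) (x + cob q θ) =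
      cu (p + 1) (q + 1) (n + 1) α x + (cu (p + 1) (q + 1) (n + 1) (cob p η) x +
        cu (p + 1) (q + 1) (n + 1) (α + cob p η) (cob q θ)) := by
    rw [cu_add_right, cu_add_left]
    abel
  rw [e] at key
  exact mem_of_add key ((coboundaries X F2 (n + 1)).add_mem h3 h4)

end General

/-! ### The space of pairs is path connected -/

theorem exists_orth2 (u u' : Sp V3) : ∃ w : V3, ‖w‖ = 1 ∧ inner ℂ (u : V3) w = 0 ∧
    inner ℂ (u' : V3) w = 0 := by
  set K : Submodule ℂ V3 := Submodule.span ℂ {(u : V3), (u' : V3)} with hK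
  have h1 : Module.finrank ℂ K ≤ 2 := by
    have := finrank_span_finset_le_card (R := ℂ) ({(u : V3), (u' : V3)} : Finset V3)
    rw [Finset.coe_pair] at this
    exact this.trans (Finset.card_le_two)
  have h2 : Module.finrank ℂ V3 = 3 := finrank_euclideanSpace_fin
  have h3 : Kᗮ ≠ ⊥ := by
    intro h
    have h4 := Submodule.finrank_add_finrank_orthogonal K
    rw [h, finrank_bot, h2] at h4
    omega
  obtain ⟨w, hw, hw0⟩ := Submodule.exists_mem_ne_zero_of_ne_bot h3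
  have hn : ‖w‖ ≠ 0 := norm_ne_zero_iff.2 hw0
  have hi : ∀ y : V3, y ∈ K → inner ℂ y w = 0 := fun y hy => (Submodule.mem_orthogonal K w).1 hw y hy
  refine ⟨((‖w‖⁻¹ : ℝ) : ℂ) • w, ?_, ?_, ?_⟩
  · rw [norm_smul, Complex.norm_real, norm_inv, norm_norm, inv_mul_cancel₀ hn]
  · rw [inner_smul_right, hi _ (Submodule.subset_span (by simp)), mul_zero]
  · rw [inner_smul_right, hi _ (Submodule.subset_span (by simp)), mul_zero]

/-- Exchanging the two vectors. -/
def swapP : C(PP V3, PP V3) where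
  toFun p := ⟨(p.1.2, p.1.1), p.2.2.1, p.2.1, by
    rw [← inner_conj_symm, p.2.2.2, map_zero]⟩
  continuous_toFun := by fun_prop

theorem joined_fib (b : Sp V3) (v v' : Fib b) : Joined (fibIncl b v) (fibIncl b v') := by
  have : PathConnectedSpace (Fib b) := H74.pathConnected_fib b
  exact (PathConnectedSpace.joined v v').map (fibIncl b).continuous

instance : PathConnectedSpace (PP V3) := by
  obtain ⟨b⟩ := nonempty_Sp
  have hF : PathConnectedSpace (Fib b) := H74.pathConnected_fib b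
  have v₀ : Fib b := Classical.arbitrary _
  refine ⟨⟨fibIncl b v₀⟩, ?_⟩
  intro p p'
  let u : Sp V3 := ⟨p.1.1, mem_sphere_zero_iff_norm.2 p.2.1⟩
  let u' : Sp V3 := ⟨p'.1.1, mem_sphere_zero_iff_norm.2 p'.2.1⟩
  obtain ⟨w, hw, h1, h2⟩ := exists_orth2 u u'
  let ww : Sp V3 := ⟨w, mem_sphere_zero_iff_norm.2 hw⟩
  have j1 : Joined p (fibIncl u ⟨w, hw, h1⟩) := joined_fib u ⟨p.1.2, p.2.2.1, p.2.2.2⟩ ⟨w, hw, h1⟩
  have j2 : Joined (fibIncl u ⟨w, hw, h1⟩) (fibIncl u' ⟨w, hw, h2⟩) := by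
    have h3 : inner ℂ w (u : V3) = 0 := by rw [← inner_conj_symm, h1, map_zero]
    have h4 : inner ℂ w (u' : V3) = 0 := by rw [← inner_conj_symm, h2, map_zero]
    have j := (joined_fib ww ⟨(u : V3), p.2.1, h3⟩ ⟨(u' : V3), p'.2.1, h4⟩).map
      swapP.continuous
    exact j
  have j3 : Joined (fibIncl u' ⟨w, hw, h2⟩) p' :=
    joined_fib u' ⟨w, hw, h2⟩ ⟨p'.1.2, p'.2.2.1, p'.2.2.2⟩
  exact j1.trans (j2.trans j3)

/-! ### The two vectors are homotopic -/

/-- The second vector. -/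
def vv : C(PP V3, Sp V3) where
  toFun p := ⟨p.1.2, mem_sphere_zero_iff_norm.mpr p.2.2.1⟩
  continuous_toFun := by fun_prop

theorem norm_rot (c s : ℝ) (h : c ^ 2 + s ^ 2 = 1) {u v : V3} (hu : ‖u‖ = 1) (hv : ‖v‖ = 1)
    (huv : inner ℂ u v = 0) : ‖(c : ℂ) • u + (s : ℂ) • v‖ = 1 := by
  have h1 : inner ℂ ((c : ℂ) • u) ((s : ℂ) • v) = 0 := by
    rw [inner_smul_left, inner_smul_right, huv, mul_zero, mul_zero]
  have h2 := norm_add_sq_eq_norm_sq_add_norm_sq_of_inner_eq_zero _ _ h1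
  rw [norm_smul, norm_smul, hu, hv, Complex.norm_real, Complex.norm_real, mul_one, mul_one,
    ← sq, ← sq, ← sq, Real.norm_eq_abs, Real.norm_eq_abs, sq_abs, sq_abs, h] at h2
  have h3 := norm_nonneg ((c : ℂ) • u + (s : ℂ) • v)
  nlinarith [sq_nonneg (‖(c : ℂ) • u + (s : ℂ) • v‖ - 1)]

/-- The rotation from the first to the second vector. -/
def rotUV : (uu (V := V3)).Homotopy vv where
  toFun p := ⟨((Real.cos (Real.pi / 2 * (p.1 : ℝ)) : ℝ) : ℂ) • p.2.1.1 +
      ((Real.sin (Real.pi / 2 * (p.1 : ℝ)) : ℝ) : ℂ) • p.2.1.2, mem_sphere_zero_iff_norm.mpr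
        (norm_rot _ _ (Real.cos_sq_add_sin_sq _) p.2.2.1 p.2.2.2.1 p.2.2.2.2)⟩
  continuous_toFun := by
    have h1 : Continuous fun p : unitInterval × PP V3 =>
        ((Real.cos (Real.pi / 2 * (p.1 : ℝ)) : ℝ) : ℂ) :=
      Complex.continuous_ofReal.comp (Real.continuous_cos.comp (by fun_prop))
    have h2 : Continuous fun p : unitInterval × PP V3 =>
        ((Real.sin (Real.pi / 2 * (p.1 : ℝ)) : ℝ) : ℂ) :=
      Complex.continuous_ofReal.comp (Real.continuous_sin.comp (by fun_prop))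
    have h3 : Continuous fun p : unitInterval × PP V3 => p.2.1.1 := by fun_prop
    have h4 : Continuous fun p : unitInterval × PP V3 => p.2.1.2 := by fun_prop
    exact ((h1.smul h3).add (h2.smul h4)).subtype_mk _
  map_zero_left p := by
    apply Subtype.ext
    change ((Real.cos (Real.pi / 2 * ((0 : unitInterval) : ℝ)) : ℝ) : ℂ) • p.1.1 +
      ((Real.sin (Real.pi / 2 * ((0 : unitInterval) : ℝ)) : ℝ) : ℂ) • p.1.2 = p.1.1
    rw [Set.Icc.coe_zero, mul_zero, Real.cos_zero, Real.sin_zero]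
    simp
  map_one_left p := by
    apply Subtype.ext
    change ((Real.cos (Real.pi / 2 * ((1 : unitInterval) : ℝ)) : ℝ) : ℂ) • p.1.1 +
      ((Real.sin (Real.pi / 2 * ((1 : unitInterval) : ℝ)) : ℝ) : ℂ) • p.1.2 = p.1.2
    rw [Set.Icc.coe_one, mul_one, Real.cos_pi_div_two, Real.sin_pi_div_two]
    simp

/-! ### Lemma 2 -/

section Two

variable (φ : C(PP V3, ES 5)) (hφ : ∀ p, φ (tauP p) = -φ p)

/-- The part where one of the first five coordinates does not vanish. -/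
def YY : Set (PP V3) := {p | ini (iS 5 (φ p)).1 ≠ 0}

/-- The part where the last coordinate does not vanish. -/
def ZZ : Set (PP V3) := {p | la (iS 5 (φ p)).1 ≠ 0}

/-- The part where the last coordinate is positive. -/
def ZP : Set (PP V3) := {p | 0 < (φ p).1 5}

/-- The part where the last coordinate is negative. -/
def ZN : Set (PP V3) := {p | (φ p).1 5 < 0}

theorem continuous_coord : Continuous fun p => (φ p).1 (5 : Fin 6) :=
  (EuclideanSpace.proj (𝕜 := ℝ) (5 : Fin 6)).continuous.comp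
    (continuous_subtype_val.comp φ.continuous)

theorem isOpen_ZP : IsOpen (ZP φ) := isOpen_lt continuous_const (continuous_coord φ)

theorem isOpen_ZN : IsOpen (ZN φ) := isOpen_lt (continuous_coord φ) continuous_const

theorem isOpen_YY : IsOpen (YY φ) :=
  isOpen_ne.preimage (continuous_ini.comp (continuous_subtype_val.comp
    ((iS 5).continuous.comp φ.continuous)))

theorem isOpen_ZZ : IsOpen (ZZ φ) :=
  isOpen_ne.preimage (continuous_la.comp (continuous_subtype_val.comp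
    ((iS 5).continuous.comp φ.continuous)))

theorem cover_YZ : YY φ ∪ ZZ φ = univ := by
  rw [eq_univ_iff_forall]
  intro p
  by_cases h : la (iS 5 (φ p)).1 = 0
  · left
    intro h'
    exact (iS 5 (φ p)).2 (ext_ini_la h' h)
  · exact Or.inr h

/-- A class of degree `5` of the sphere vanishes on `Y`. -/
theorem resY {κ : Coch 5 (ES 5) F2} (hκ : cob 5 κ = 0) :
    pbC 5 (incl (YY φ)) (pbC 5 φ κ) ∈ coboundaries (YY φ) F2 5 := by
  have hr : cob 5 (pbC 5 (rS 5) κ) = 0 := by rw [← pbC_cob, hκ, map_zero]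
  let g : C(YY φ, SW 5) := ⟨fun p => ⟨iS 5 (φ p.1), p.2⟩, by
    exact ((iS 5).continuous.comp (φ.continuous.comp continuous_subtype_val)).subtype_mk _⟩
  have e0 : pbC 5 (iS 5) (pbC 5 (rS 5) κ) = κ := by
    change pbC 5 ((rS 5).comp (iS 5)) κ = κ
    rw [rS_iS]
    rfl
  have e1 : pbC 5 (incl (YY φ)) (pbC 5 φ κ) =
      pbC 5 g (pbC 5 (incl (SW 5)) (pbC 5 (rS 5) κ)) := by
    nth_rewrite 1 [← e0]
    rfl
  have h1 : H.pb (incl (SW 5)) (H.mk 5 (⟨pbC 5 (rS 5) κ, hr⟩ : cocycles (VV 6) F2 5)) = 0 := by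
    rw [← H.pb_eq_of_homotopic ⟨hW (n := 5)⟩, ← H.pb_comp,
      HVV_eq_zero 5 5 le_rfl (H.pb iV _), map_zero]
  have h2 := congrArg (H.pb g) h1
  rw [map_zero, H.pb_mk, H.pb_mk, H.mk_eq_zero] at h2
  rw [e1]
  exact h2

include hφ

theorem tau_ZN {p : PP V3} (h : p ∈ ZN φ) : tauP p ∈ ZP φ := by
  change 0 < (φ (tauP p)).1 5
  rw [hφ p]
  change 0 < -(φ p).1 5
  have h' : (φ p).1 5 < 0 := h
  linarith

/-- A class of degree `3` vanishes on `Z` if `{φ₅ > 0}` is contractible in the space. -/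
theorem resZ (hn : (incl (ZP φ)).Nullhomotopic) {x : Coch 3 (PP V3) F2} (hx : cob 3 x = 0) :
    pbC 3 (incl (ZZ φ)) x ∈ coboundaries (ZZ φ) F2 3 := by
  have h3 : ZP φ ⊆ ZZ φ := fun p hp => ne_of_gt (show 0 < la (iS 5 (φ p)).1 from hp)
  have h4 : ZN φ ⊆ ZZ φ := fun p hp => ne_of_lt (show la (iS 5 (φ p)).1 < 0 from hp)
  have S : H83.MVSq (MP_904b2a_gt.H83.incl (empty_subset (ZP φ)))
      (MP_904b2a_gt.H83.incl (empty_subset (ZN φ)))
      (MP_904b2a_gt.H83.incl h3) (MP_904b2a_gt.H83.incl h4) := by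
    refine MP_904b2a_gt.H83.MVSq.sub (isOpen_ZP φ) (isOpen_ZN φ) _ _ _ _ ?_ ?_
    · intro p hp
      rcases lt_or_gt_of_ne (show la (iS 5 (φ p)).1 ≠ 0 from hp) with h | h
      · exact Or.inr h
      · exact Or.inl h
    · rintro p ⟨h1, h2⟩
      exact absurd (show 0 < (φ p).1 5 from h1) (not_lt_of_gt (show (φ p).1 5 < 0 from h2))
  set c : H 3 (ZZ φ) F2 := H.pb (incl (ZZ φ)) (H.mk 3 (⟨x, hx⟩ : cocycles (PP V3) F2 3)) with hc
  have r1 : H.pb (MP_904b2a_gt.H83.incl h3) c = 0 := by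
    rw [hc, H.pb_comp]
    exact pb_null hn 2 _
  have r2 : H.pb (MP_904b2a_gt.H83.incl h4) c = 0 := by
    rw [hc, H.pb_comp]
    have e : (incl (ZZ φ)).comp (MP_904b2a_gt.H83.incl h4) =
        tauP.comp ((incl (ZP φ)).comp (resMap tauP (fun p hp => tau_ZN φ hφ hp))) := by
      ext1 p
      exact (congrArg (fun f : C(PP V3, PP V3) => f p.1) tauP_tauP).symm
    rw [e, ← H.pb_comp, ← H.pb_comp, pb_null hn 2, map_zero]
  obtain ⟨a, ha⟩ := MP_904b2a_gt.H83.MV.of_restrict S.comm r1 r2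
  rw [H_eq_zero_of_isEmpty 2 a] at ha
  have h0 := MP_904b2a_gt.H83.MV.eq_zero S ha
  rw [hc, H.pb_mk, H.mk_eq_zero] at h0
  exact h0

end Two

/-- **Module CORE.** For an odd map `φ` from the space of orthonormal pairs to the `5`-sphere, the
set `{φ₅ > 0}` is not contractible in the space of pairs. -/
theorem core (φ : C(PP V3, ES 5)) (hφ : ∀ p, φ (tauP p) = -φ p) :
    ¬ (ContinuousMap.mk (Subtype.val : {p : PP V3 | 0 < (φ p).1 5} → PP V3)
      continuous_subtype_val).Nullhomotopic := by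
  intro hn
  have hn' : (incl (ZP φ)).Nullhomotopic := hn
  obtain ⟨hv, ⟨g, hg, hg'⟩, -⟩ := sphStatement 5 (by omega)
  obtain ⟨⟨κ, hκ'⟩, rfl⟩ := H.mk_surjective 5 g
  have hκ : cob 5 κ = 0 := hκ'
  obtain ⟨L, L', hLL', hL'L, hLn, -⟩ := exists_odd_iso (E := V3) (n := 5) H74.finrank_V3
  obtain ⟨s, hs⟩ := exists_half tauP_tauP tauP_ne
  obtain ⟨t, ht⟩ := exists_half (Invol.comp_self (TE 5)) (TE 5).free
  set u : C(PP V3, ES 5) := L.comp uu with hu
  set β : Coch 5 (PP V3) F2 := pbC 5 u κ with hβ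
  have huτ : u.comp tauP = u := rfl
  have hβi : β ∈ inv tauP 5 := rfl
  have hβc : cob 5 β = 0 := by rw [hβ, ← pbC_cob, hκ, map_zero]
  -- the class of `β`
  have hs' : H.pb L (H.mk 5 (⟨κ, hκ'⟩ : cocycles (ES 5) F2 5)) ≠ 0 := by
    intro h
    apply hg
    have h2 := congrArg (H.pb L') h
    rw [map_zero, H.pb_comp, hLL', H.pb_id] at h2
    exact h2
  obtain ⟨b1, b2⟩ := H74.H5_P hs'
  have eb : H.pb uu (H.pb L (H.mk 5 (⟨κ, hκ'⟩ : cocycles (ES 5) F2 5))) =
      H.mk 5 (⟨β, hβc⟩ : cocycles (PP V3) F2 5) := rfl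
  rw [eb] at b1 b2
  have hβn : β ∉ coboundaries (PP V3) F2 5 := fun h => b1 (H.mk_eq_zero.2 h)
  have hβ' : ∀ z : Coch 5 (PP V3) F2, cob 5 z = 0 →
      z ∈ coboundaries (PP V3) F2 5 ∨ z + β ∈ coboundaries (PP V3) F2 5 := by
    intro z hz
    rcases b2 (H.mk 5 (⟨z, hz⟩ : cocycles (PP V3) F2 5)) with h | h
    · exact Or.inl (H.mk_eq_zero.1 h)
    · right
      rw [H.mk_eq_mk] at h
      have h2 : z - β ∈ coboundaries (PP V3) F2 5 := h
      rwa [coch_sub] at h2
  -- Lemma 1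
  set f₁ : C(PP V3, ES 5) := L.comp vv with hf₁
  have h₀ : φ.comp tauP = (TE 5).τ.comp φ := by
    ext1 p
    exact hφ p
  have h₁ : f₁.comp tauP = (TE 5).τ.comp f₁ := by
    ext1 p
    exact hLn (vv p)
  have L1 := H27.lemma_one_inv (Invol.comp_self (TE 5)) φ f₁ h₀ h₁ u huτ hκ ⟨t, ht⟩
    (fun z hz hc => invES (by omega) hz hc) (fun z hz hc => invES (by omega) hz hc)
    (fun s hs => pwr_notMem (Invol.comp_self (TE 5)) hs
      (fun k h1 h2 w => hv k h1 (by omega) w))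
    (fun z hz => by
      rcases hg' (H.mk 5 (⟨z, hz⟩ : cocycles (ES 5) F2 5)) with h | h
      · exact Or.inl (H.mk_eq_zero.1 h)
      · right
        rw [H.mk_eq_mk] at h
        have h2 : z - κ ∈ coboundaries (ES 5) F2 5 := h
        rwa [coch_sub] at h2)
    (fun z hz => mem_cobdry (fun w => hv 7 (by omega) (by omega) w) hz)
    (fun z hz hc => five hs hβi hβ' hz hc)
    (fun s' hs' => pwr6P hs')
    (fun s' hs' => seven hs' hβi hβc hβn hβ')
  -- the rotation
  have h2 : f₁.Homotopic u := by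
    have h : (vv).Homotopic (uu (V := V3)) := ⟨rotUV.symm⟩
    exact (ContinuousMap.Homotopic.refl L).comp h
  have h3 := H.pb_eq_of_homotopic h2 (H.mk 5 (⟨κ, hκ'⟩ : cocycles (ES 5) F2 5))
  rw [H.pb_mk, H.pb_mk, H.mk_eq_mk] at h3
  have h4 : pbC 5 f₁ κ - β ∈ coboundaries (PP V3) F2 5 := h3
  rw [coch_sub] at h4
  have h5 : pbC 5 φ κ + β ∈ coboundaries (PP V3) F2 5 := mem_trans L1 h4
  -- the product
  obtain ⟨x, hx, hx'⟩ := exists_top hs
  apply hx' β hβi hβc hβn hβ'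
  have h6 := cu_mem_of_cover (isOpen_YY φ) (isOpen_ZZ φ) (cover_YZ φ) (p := 4) (q := 2) (n := 7)
    rfl (α := pbC 5 φ κ) (x := x) (by rw [← pbC_cob, hκ, map_zero]) hx (resY φ hκ)
    (resZ φ hφ hn' hx)
  have h7 := cu_mem_cobdry_left (n := 8) rfl h5 hx
  rw [cu_add_left, add_comm (cu 5 3 8 (pbC 5 φ κ) x)] at h7
  exact mem_of_add h7 h6

end

end Pool.Agent.Lib.MP_89fcdb_gt.H83
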