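import Pool.Agent.Lib.MP_904b2a_gt.H83.MV
import Pool.Agent.Lib.MP_89fcdb_gt.Defs

/-!
# MP_89fcdb_gt: mod 2 cochains and the cup product
-/

open scoped BigOperators
open Finset

namespace Pool.Agent.Lib.MP_89fcdb_gt.H83

open Pool.Agent.Lib.MP_904b2a_gt

noncomputable section

variable {X Y : Type} [TopologicalSpace X] [TopologicalSpace Y]

theorem zsmul_F2 (i : ℕ) (x : F2) : (-1 : ℤ) ^ i • x = x := by
  rcases neg_one_pow_eq_or ℤ i with h | h
  · rw [h, one_smul]
  · rw [h, neg_one_smul, ZMod.neg_eq_self_mod_two]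

theorem add_self_F2 (x : F2) : x + x = 0 := CharTwo.add_self_eq_zero x

theorem coch_add_self {n : ℕ} (φ : Coch n X F2) : φ + φ = 0 := by
  funext σ
  exact add_self_F2 _

theorem coch_neg {n : ℕ} (φ : Coch n X F2) : -φ = φ := by
  rw [neg_eq_iff_add_eq_zero, coch_add_self]

theorem coch_sub {n : ℕ} (φ ψ : Coch n X F2) : φ - ψ = φ + ψ := by
  rw [sub_eq_add_neg, coch_neg]

/-- The mod 2 coboundary without signs. -/
theorem cob2_apply (n : ℕ) (φ : Coch n X F2) (σ : C(Simp (n + 1), X)) :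
    cob n φ σ = ∑ i ∈ range (n + 2), φ (σ.comp (smap (fv n i))) := by
  rw [cob_apply]
  exact sum_congr rfl fun i _ => zsmul_F2 i _

theorem cu_apply (p q n : ℕ) (φ : Coch p X F2) (ψ : Coch q X F2) (σ : C(Simp n, X)) :
    cu p q n φ ψ σ = φ (σ.comp (smap (frontv p n))) * ψ (σ.comp (smap (backv q n))) := rfl

/-- An integral lift of a mod 2 cochain. -/
def liftZ {n : ℕ} (φ : Coch n X F2) : Coch n X ℤ := fun σ => (φ σ).val

theorem cmC_liftZ {n : ℕ} (φ : Coch n X F2) :
    cmC n (Int.castAddHom F2) (liftZ φ) = φ := by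
  funext σ
  change (((φ σ).val : ℤ) : F2) = φ σ
  rw [Int.cast_natCast, ZMod.natCast_val, ZMod.cast_id]

theorem cmC_cupC (p q n : ℕ) (φ : Coch p X ℤ) (ψ : Coch q X ℤ) :
    cmC n (Int.castAddHom F2) (cupC p q n φ ψ) =
      cu p q n (cmC p (Int.castAddHom F2) φ) (cmC q (Int.castAddHom F2) ψ) := by
  funext σ
  change ((φ _ * ψ _ : ℤ) : F2) = _
  rw [Int.cast_mul]
  rfl

theorem cob_cu {p q n : ℕ} (h : p + q = n) (φ : Coch p X F2) (ψ : Coch q X F2) :
    cob n (cu p q n φ ψ) =
      cu (p + 1) q (n + 1) (cob p φ) ψ + cu p (q + 1) (n + 1) φ (cob q ψ) := by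
  have e := congrArg (cmC (n + 1) (Int.castAddHom F2)) (cob_cupC h (liftZ φ) (liftZ ψ))
  rw [cmC_cob, cmC_cupC, cmC_liftZ, cmC_liftZ, map_add, cmC_cupC, cmC_cob, cmC_liftZ,
    cmC_liftZ, map_zsmul, cmC_cupC, cmC_cob, cmC_liftZ, cmC_liftZ] at e
  rw [e]
  congr 1
  funext σ
  exact zsmul_F2 p _

theorem cu_add_left (p q n : ℕ) (φ φ' : Coch p X F2) (ψ : Coch q X F2) :
    cu p q n (φ + φ') ψ = cu p q n φ ψ + cu p q n φ' ψ := by
  funext σ
  simp [cu, add_mul]

theorem cu_add_right (p q n : ℕ) (φ : Coch p X F2) (ψ ψ' : Coch q X F2) :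
    cu p q n φ (ψ + ψ') = cu p q n φ ψ + cu p q n φ ψ' := by
  funext σ
  simp [cu, mul_add]

theorem cu_zero_left (p q n : ℕ) (ψ : Coch q X F2) : cu p q n (0 : Coch p X F2) ψ = 0 := by
  funext σ
  simp [cu]

theorem cu_zero_right (p q n : ℕ) (φ : Coch p X F2) : cu p q n φ (0 : Coch q X F2) = 0 := by
  funext σ
  simp [cu]

theorem pbC_cu (p q n : ℕ) (f : C(X, Y)) (φ : Coch p Y F2) (ψ : Coch q Y F2) :
    pbC n f (cu p q n φ ψ) = cu p q n (pbC p f φ) (pbC q f ψ) := rfl

/-- The constant zero-cochain `1`. -/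
def one0 : Coch 0 X F2 := fun _ => 1

theorem cob_one0 : cob 0 (one0 : Coch 0 X F2) = 0 := by
  funext σ
  rw [cob2_apply]
  simp only [one0, Pi.zero_apply]
  rw [sum_const, card_range]
  exact add_self_F2 1

theorem pbC_one0 (f : C(X, Y)) : pbC 0 f (one0 : Coch 0 Y F2) = one0 := rfl

theorem frontv_self (n : ℕ) : frontv n n = id := by
  funext k
  apply Fin.ext
  have := k.2
  rw [frontv_val]
  simp only [id]
  omega

theorem backv_self (n : ℕ) : backv n n = id := by
  funext k
  apply Fin.ext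
  have := k.2
  rw [backv_val]
  simp only [id]
  omega

theorem cu_one0 (n : ℕ) (φ : Coch n X F2) : cu n 0 n φ one0 = φ := by
  funext σ
  rw [cu_apply, frontv_self, smap_id, ContinuousMap.comp_id]
  exact mul_one _

theorem one0_cu (n : ℕ) (φ : Coch n X F2) : cu 0 n n one0 φ = φ := by
  funext σ
  rw [cu_apply, backv_self, smap_id, ContinuousMap.comp_id]
  exact one_mul _

theorem cu_assoc {p q r m l n : ℕ} (h1 : p + q = m) (h2 : q + r = l) (h3 : m + r = n)
    (φ : Coch p X F2) (ψ : Coch q X F2) (θ : Coch r X F2) :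
    cu m r n (cu p q m φ ψ) θ = cu p l n φ (cu q r l ψ θ) := by
  funext σ
  simp only [cu_apply, ContinuousMap.comp_assoc, smap_comp]
  have e1 : frontv m n ∘ frontv p m = frontv p n := by
    funext k
    apply Fin.ext
    have := k.2
    simp only [Function.comp, frontv_val]
    omega
  have e2 : frontv m n ∘ backv q m = backv l n ∘ frontv q l := by
    funext k
    apply Fin.ext
    have := k.2
    simp only [Function.comp, frontv_val, backv_val]
    omega
  have e3 : backv r n = backv l n ∘ backv r l := by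
    funext k
    apply Fin.ext
    have := k.2
    simp only [Function.comp, backv_val]
    omega
  rw [e1, e2, e3, mul_assoc]

/-- The powers of a one-cochain. -/
def pwr (a : Coch 1 X F2) : ∀ k : ℕ, Coch k X F2
  | 0 => one0
  | (k + 1) => cu k 1 (k + 1) (pwr a k) a

theorem pwr_succ (a : Coch 1 X F2) (k : ℕ) : pwr a (k + 1) = cu k 1 (k + 1) (pwr a k) a := rfl

theorem pwr_add (a : Coch 1 X F2) (k l : ℕ) : cu k l (k + l) (pwr a k) (pwr a l) = pwr a (k + l) := by
  induction l with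
  | zero => exact cu_one0 k _
  | succ l ih =>
    change cu k (l + 1) (k + l + 1) (pwr a k) (cu l 1 (l + 1) (pwr a l) a) = _
    rw [← cu_assoc (m := k + l) (n := k + l + 1) rfl rfl rfl, ih]
    rfl

theorem cob_pwr {a : Coch 1 X F2} (ha : cob 1 a = 0) (k : ℕ) : cob k (pwr a k) = 0 := by
  induction k with
  | zero => exact cob_one0
  | succ k ih =>
    rw [pwr_succ, cob_cu rfl, ih, ha, cu_zero_left, cu_zero_right, add_zero]

theorem pbC_pwr (f : C(X, Y)) (a : Coch 1 Y F2) (k : ℕ) : pbC k f (pwr a k) = pwr (pbC 1 f a) k := by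
  induction k with
  | zero => rfl
  | succ k ih => rw [pwr_succ, pbC_cu, ih, pwr_succ]

/-- The two conventions for powers agree. -/
theorem pw_eq_pwr (a : Coch 1 X F2) (k : ℕ) : pw a k = pwr a k := by
  induction k with
  | zero => rfl
  | succ k ih =>
    have h1 : pwr a 1 = a := one0_cu 1 a
    have h2 := pwr_add a 1 k
    change cu 1 k (k + 1) a (pw a k) = _
    rw [ih]
    have h3 : 1 + k = k + 1 := by omega
    rw [h1] at h2
    rw [h3] at h2
    exact h2

end

end Pool.Agent.Lib.MP_89fcdb_gt.H83
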