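import Pool.Agent.Lib.MP_89fcdb_gt.H83.Inv
import Pool.Agent.Lib.MP_904b2a_gt.SmallC

/-!
# MP_89fcdb_gt: the small simplices theorem for invariant cochains
-/

open scoped BigOperators
open Finset

namespace Pool.Agent.Lib.MP_89fcdb_gt.H83

open Pool.Agent.Lib.MP_904b2a_gt Pool.Agent.Lib.MP_904b2a_gt.H41

noncomputable section

variable {X : Type} [TopologicalSpace X] {ι : Type*}

/-! ### Naturality of the operators -/

theorem chm_S (g : C(X, X)) (n : ℕ) (c : Ch n X) : chm g n (S n c) = S n (chm g n c) := by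
  have : (chm g n).comp (S n) = (S n).comp (chm g n) := by
    refine lext fun σ => ?_
    rw [LinearMap.comp_apply, LinearMap.comp_apply, S_single, chm_real, chm_single, S_single]
  exact LinearMap.congr_fun this c

theorem chm_T (g : C(X, X)) (n : ℕ) (c : Ch n X) : chm g (n + 1) (T n c) = T n (chm g n c) := by
  have : (chm g (n + 1)).comp (T n) = (T n).comp (chm g n) := by
    refine lext fun σ => ?_
    rw [LinearMap.comp_apply, LinearMap.comp_apply, T_single, chm_real, chm_single, T_single]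
  exact LinearMap.congr_fun this c

theorem chm_pow_S (g : C(X, X)) (n m : ℕ) (c : Ch n X) :
    chm g n (((S n) ^ m) c) = ((S n) ^ m) (chm g n c) := by
  induction m with
  | zero => simp
  | succ m ih => rw [pow_succ', Module.End.mul_apply, Module.End.mul_apply, chm_S, ih]

theorem chm_Dm (g : C(X, X)) (m n : ℕ) (c : Ch n X) :
    chm g (n + 1) (Dm m n c) = Dm m n (chm g n c) := by
  rw [Dm_apply, Dm_apply, map_sum]
  exact sum_congr rfl fun i _ => by rw [chm_T, chm_pow_S]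

/-- The family `U` is invariant under `g`. -/
def Pres (g : C(X, X)) (U : ι → Set X) : Prop := ∀ i x, g x ∈ U i ↔ x ∈ U i

theorem Pres.good {g : C(X, X)} {U : ι → Set X} (h : Pres g U) {n : ℕ} (σ : C(Simp n, X))
    (δ : ℝ) : Good U (g.comp σ) δ ↔ Good U σ δ := by
  unfold Good
  refine forall_congr' fun A => ?_
  refine imp_congr Iff.rfl (exists_congr fun i => ?_)
  constructor
  · rintro h1 _ ⟨t, ht, rfl⟩
    exact (h i _).1 (h1 ⟨t, ht, rfl⟩)
  · rintro h1 _ ⟨t, ht, rfl⟩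
    exact (h i _).2 (h1 ⟨t, ht, rfl⟩)

open Classical in
theorem Pres.mm {g : C(X, X)} {U : ι → Set X} (h : Pres g U) {n : ℕ} (σ : C(Simp n, X)) :
    mm U (g.comp σ) = mm U σ := by
  have e : (fun m : ℕ => Good U (g.comp σ) (cf n ^ m)) = fun m : ℕ => Good U σ (cf n ^ m) :=
    funext fun m => propext (h.good σ _)
  exact congrArg (fun p : ℕ → Prop => (if h : ∃ m, p m then Nat.find h else 0 : ℕ)) e

theorem Pres.small {g : C(X, X)} {U : ι → Set X} (h : Pres g U) {n : ℕ} (σ : C(Simp n, X)) :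
    g.comp σ ∈ small U n ↔ σ ∈ small U n := by
  constructor
  · rintro ⟨i, hi⟩
    refine ⟨i, ?_⟩
    rintro _ ⟨t, rfl⟩
    exact (h i _).1 (hi ⟨t, rfl⟩)
  · rintro ⟨i, hi⟩
    refine ⟨i, ?_⟩
    rintro _ ⟨t, rfl⟩
    exact (h i _).2 (hi ⟨t, rfl⟩)

theorem Pres.Dh {g : C(X, X)} {U : ι → Set X} (h : Pres g U) (n : ℕ) (c : Ch n X) :
    chm g (n + 1) (Dh U n c) = Dh U n (chm g n c) := by
  have : (chm g (n + 1)).comp (H41.Dh U n) = (H41.Dh U n).comp (chm g n) := by
    refine lext fun σ => ?_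
    rw [LinearMap.comp_apply, LinearMap.comp_apply, Dh_single, chm_Dm, chm_single, Dh_single,
      h.mm]
  exact LinearMap.congr_fun this c

theorem Pres.rho {g : C(X, X)} {U : ι → Set X} (h : Pres g U) (n : ℕ) (c : Ch n X) :
    chm g n (rho U n c) = rho U n (chm g n c) := by
  cases n with
  | zero => rw [rho_zero, rho_zero, map_sub, chm_sbd, h.Dh]
  | succ n =>
    rw [rho_succ, rho_succ, map_sub, map_sub, chm_sbd, h.Dh, h.Dh, chm_sbd]

theorem ev_chm {A : Type*} [AddCommGroup A] (g : C(X, X)) {n : ℕ} (φ : Coch n X A) (c : Ch n X) :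
    ev φ (chm g n c) = ev (pbC n g φ) c := by
  have : (ev φ).comp (chm g n).toAddMonoidHom = ev (pbC n g φ) := by
    refine Finsupp.addHom_ext' fun σ => ?_
    ext
    simp only [AddMonoidHom.comp_apply, Finsupp.singleAddHom_apply, LinearMap.toAddMonoidHom_coe,
      chm_single, ev_single]
    rfl
  exact DFunLike.congr_fun this c

/-- **Primitives of invariant cocycles**: an invariant cocycle which is the coboundary of an
invariant cochain on small simplices is the coboundary of an invariant cochain. -/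
theorem exists_primitive_inv {τ : C(X, X)} (U : ι → Set X) (hU : ∀ i, IsOpen (U i))
    (hc : ⋃ i, U i = Set.univ) (hP : Pres τ U) {n : ℕ} {φ : Coch (n + 1) X F2}
    (hφ : cob (n + 1) φ = 0) (hi : φ ∈ inv τ (n + 1)) {η : Coch n X F2} (hη : η ∈ inv τ n)
    (h : ∀ σ ∈ small U (n + 1), φ σ = cob n η σ) :
    ∃ ψ ∈ inv τ n, cob n ψ = φ ∧ ∀ σ ∈ small U n, ψ σ = η σ := by
  have h1 := sbd_rho U
  have h2 := rho_mem hU hc
  have h5 : ∀ n (c : Ch (n + 1) X), sbd (n + 1) (Dh U (n + 1) c) + Dh U n (sbd n c) =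
      c - rho U (n + 1) c := by
    intro n c
    rw [rho_succ]
    abel
  refine ⟨fun σ => ev φ (Dh U n (Finsupp.single σ 1)) + ev η (rho U n (Finsupp.single σ 1)),
    ?_, ?_, fun σ hσ => ?_⟩
  · funext σ
    change ev φ (Dh U n (Finsupp.single (τ.comp σ) 1)) +
      ev η (rho U n (Finsupp.single (τ.comp σ) 1)) = _
    rw [← chm_single, ← hP.Dh, ← hP.rho, ev_chm, ev_chm, mem_inv.1 hi, mem_inv.1 hη]
  · funext σ
    have e : ev (fun σ => ev φ (Dh U n (Finsupp.single σ 1)) +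
        ev η (rho U n (Finsupp.single σ 1))) =
        (ev φ).comp (Dh U n).toAddMonoidHom + (ev η).comp (rho U n).toAddMonoidHom := by
      refine Finsupp.addHom_ext' fun σ => ?_
      ext
      simp
    rw [← ev_single (cob n _) σ, ← ev_sbd, e]
    change ev φ (Dh U n (sbd n (Finsupp.single σ 1))) +
      ev η (rho U n (sbd n (Finsupp.single σ 1))) = _
    rw [← h1, ev_sbd, ← ev_congr h (h2 _ _)]
    have h6 : Dh U n (sbd n (Finsupp.single σ 1)) =
        Finsupp.single σ 1 - rho U (n + 1) (Finsupp.single σ 1) -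
          sbd (n + 1) (Dh U (n + 1) (Finsupp.single σ 1)) := by
      rw [← h5]
      abel
    rw [h6, map_sub, map_sub, ev_sbd, hφ, ev_zero, ev_single]
    abel
  · have e1 := rho_small (single_mem_supported hσ)
    have e2 := Dh_small (single_mem_supported hσ)
    dsimp only
    rw [e1, e2, map_zero, zero_add, ev_single]

/-! ### Mayer–Vietoris for invariant cochains -/

theorem pres_two {τ : C(X, X)} {U W : Set X} (hU : ∀ x, τ x ∈ U ↔ x ∈ U)
    (hW : ∀ x, τ x ∈ W ↔ x ∈ W) : Pres τ (two U W) := by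
  intro b x
  cases b
  · exact hW x
  · exact hU x

theorem inS_comp_iff {τ : C(X, X)} {U : Set X} (hU : ∀ x, τ x ∈ U ↔ x ∈ U) {n : ℕ}
    (σ : C(Simp n, X)) : InS U (τ.comp σ) ↔ InS U σ :=
  forall_congr' fun t => hU (σ t)

theorem cob_congr {S : Set X} {n : ℕ} {φ ψ : Coch n X F2} (h : ∀ σ, InS S σ → φ σ = ψ σ)
    {σ : C(Simp (n + 1), X)} (hσ : InS S σ) : cob n φ σ = cob n ψ σ := by
  rw [cob_apply, cob_apply]
  exact sum_congr rfl fun i _ => by rw [h _ (hσ.comp _)]

/-- Vanishing by an invariant open cover with two members. -/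
theorem mem_invB_of_cover {τ : C(X, X)} {U W : Set X} (hUo : IsOpen U) (hWo : IsOpen W)
    (hc : U ∪ W = Set.univ) (hU : ∀ x, τ x ∈ U ↔ x ∈ U) (hW : ∀ x, τ x ∈ W ↔ x ∈ W) {k : ℕ}
    {z : Coch (k + 1) X F2} (hz : z ∈ inv τ (k + 1)) (hzc : cob (k + 1) z = 0)
    (h1 : ∃ ψ ∈ inv τ k, ∀ σ, InS U σ → cob k ψ σ = z σ)
    (h2 : ∃ ψ ∈ inv τ k, ∀ σ, InS W σ → cob k ψ σ = z σ)
    (h3 : ∀ d ∈ inv τ k, (∀ σ, InS (U ∩ W) σ → cob k d σ = 0) →
      ∃ e ∈ invB τ k, ∀ σ, InS (U ∩ W) σ → d σ = e σ) : z ∈ invB τ (k + 1) := by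
  classical
  obtain ⟨ψ, hψ, hψ'⟩ := h1
  obtain ⟨χ, hχ, hχ'⟩ := h2
  obtain ⟨e, he, hde⟩ := h3 (ψ + χ) (add_mem hψ hχ) (fun σ hσ => by
    rw [map_add, Pi.add_apply, hψ' σ (hσ.mono Set.inter_subset_left),
      hχ' σ (hσ.mono Set.inter_subset_right)]
    exact add_self_F2 _)
  have hec : cob k e = 0 := cob_of_mem_invB he
  have hei : e ∈ inv τ k := invB_le_inv k he
  set η : Coch k X F2 := fun σ => if InS U σ then (ψ + e) σ else χ σ with hη
  have hηi : η ∈ inv τ k := by
    funext σ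
    change η (τ.comp σ) = η σ
    simp only [hη, inS_comp_iff hU σ]
    have e1 : (ψ + e) (τ.comp σ) = (ψ + e) σ := congrFun (mem_inv.1 (add_mem hψ hei)) σ
    have e2 : χ (τ.comp σ) = χ σ := congrFun (mem_inv.1 hχ) σ
    rw [e1, e2]
  have ηU : ∀ σ : C(Simp k, X), InS U σ → η σ = (ψ + e) σ := fun σ hσ => by
    simp only [hη]
    rw [if_pos hσ]
  have ηW : ∀ σ : C(Simp k, X), InS W σ → η σ = χ σ := fun σ hσ => by
    by_cases h : InS U σ
    · rw [ηU σ h]
      have h4 := hde σ (fun t => ⟨h t, hσ t⟩)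
      rw [Pi.add_apply] at h4
      rw [Pi.add_apply, ← h4, ← add_assoc, add_self_F2, zero_add]
    · simp only [hη]
      rw [if_neg h]
  obtain ⟨θ, hθ, hθ', -⟩ := exists_primitive_inv (two U W) (isOpen_two hUo hWo) (iUnion_two hc)
    (pres_two hU hW) hzc hz hηi (fun σ hσ => by
      rcases mem_small_two.1 hσ with h | h
      · have hs : InS U σ := inS_iff_range.2 h
        rw [cob_congr ηU hs, map_add, hec, add_zero, hψ' σ hs]
      · have hs : InS W σ := inS_iff_range.2 h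
        rw [cob_congr ηW hs, hχ' σ hs])
  exact ⟨θ, hθ, hθ'⟩

end

end Pool.Agent.Lib.MP_89fcdb_gt.H83
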