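import Pool.Agent.Lib.MP_89fcdb_gt.H83.Sph
import Pool.Agent.Lib.MP_89fcdb_gt.H74.PC

/-!
# MP_89fcdb_gt, module NC: the invariant cohomology of the space of orthonormal pairs in `ℂ³`
-/

open scoped BigOperators
open Set Topology

namespace Pool.Agent.Lib.MP_89fcdb_gt.H83

open Pool.Agent.Lib.MP_904b2a_gt
open Pool.Agent.Lib.MP_89fcdb_gt.H74 (PP V3 Sp uu Fib fibIncl KK)

noncomputable section

/-! ### Changing the half cochain -/

section General

variable {X Y : Type} [TopologicalSpace X] [TopologicalSpace Y] {τ : C(X, X)} {τ' : C(Y, Y)}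

theorem mem_of_add {n : ℕ} {S : AddSubgroup (Coch n X F2)} {z q : Coch n X F2}
    (h1 : z + q ∈ S) (h2 : q ∈ S) : z ∈ S := by
  have h := S.add_mem h1 h2
  rwa [add_assoc, coch_add_self, add_zero] at h

theorem mem_trans {n : ℕ} {S : AddSubgroup (Coch n X F2)} {z q p : Coch n X F2}
    (h1 : z + q ∈ S) (h2 : q + p ∈ S) : z + p ∈ S := by
  have h := S.add_mem h1 h2
  have e : z + q + (q + p) = z + p + (q + q) := by abel
  rwa [e, coch_add_self, add_zero] at h

theorem Half.pwr_add_mem {s s' : Coch 0 X F2} (h : Half τ s) (h' : Half τ s') (k : ℕ) :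
    pwr (cob 0 s) k + pwr (cob 0 s') k ∈ invB τ k := by
  induction k with
  | zero =>
    rw [show pwr (cob 0 s) 0 = pwr (cob 0 s') 0 from rfl, coch_add_self]
    exact zero_mem _
  | succ k ih =>
    have e : pwr (cob 0 s) (k + 1) + pwr (cob 0 s') (k + 1) =
        cu k 1 (k + 1) (pwr (cob 0 s) k + pwr (cob 0 s') k) (cob 0 s) +
          cu k 1 (k + 1) (pwr (cob 0 s') k) (cob 0 (s + s')) := by
      rw [pwr_succ, pwr_succ, cu_add_left, map_add, cu_add_right]
      generalize cu k 1 (k + 1) (pwr (cob 0 s) k) (cob 0 s) = x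
      generalize cu k 1 (k + 1) (pwr (cob 0 s') k) (cob 0 s) = y
      generalize cu k 1 (k + 1) (pwr (cob 0 s') k) (cob 0 s') = z
      calc x + z = x + z + (y + y) := by rw [coch_add_self, add_zero]
        _ = x + y + (y + z) := by abel
    rw [e]
    refine (invB τ (k + 1)).add_mem (cu_mem_invB_left rfl ih h.cob_mem (cob_cob 0 s)) ?_
    refine cu_mem_invB_right rfl (pwr_mem_inv h'.cob_mem k) (cob_pwr (cob_cob 0 s') k) ?_
    exact ⟨s + s', h.add_mem h', rfl⟩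

/-- A cocycle of positive degree in a space without cohomology in this degree. -/
theorem mem_cobdry {k : ℕ} (hv : ∀ u : H k X F2, u = 0) {z : Coch k X F2} (hz : cob k z = 0) :
    z ∈ coboundaries X F2 k :=
  H.mk_eq_zero.1 (hv (H.mk k ⟨z, hz⟩))

/-- Invariant cocycles which are plain coboundaries are multiples of `w`. -/
theorem Half.down (hτ : τ.comp τ = ContinuousMap.id X) {s : Coch 0 X F2} (h : Half τ s) {k : ℕ}
    {z : Coch (k + 1) X F2} (hz : z ∈ inv τ (k + 1)) (hb : z ∈ coboundaries X F2 (k + 1)) :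
    ∃ y ∈ inv τ k, cob k y = 0 ∧ z + cu k 1 (k + 1) y (cob 0 s) ∈ invB τ (k + 1) := by
  obtain ⟨φ, hφ⟩ := hb
  exact h.exact1 hτ hz hφ

/-- Below the first non-zero plain cohomology group, the invariant cohomology is generated by the
powers of `w`. -/
theorem Half.low [PathConnectedSpace X] (hτ : τ.comp τ = ContinuousMap.id X) {s : Coch 0 X F2}
    (h : Half τ s) : ∀ k : ℕ, (∀ m, 1 ≤ m → m ≤ k → ∀ u : H m X F2, u = 0) →
    ∀ z ∈ inv τ k, cob k z = 0 → z ∈ invB τ k ∨ z + pwr (cob 0 s) k ∈ invB τ k := by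
  intro k
  induction k with
  | zero =>
    intro _ z _ hc
    have x : X := Classical.arbitrary X
    have h2 : ∀ a : F2, a = 0 ∨ a + 1 = 0 := by decide
    rcases h2 (z (cs 0 x)) with h3 | h3
    · left
      change z = 0
      funext σ
      rw [coch0_const hc σ (cs 0 x), h3]
      rfl
    · right
      change z + one0 = 0
      funext σ
      change z σ + 1 = 0
      rw [coch0_const hc σ (cs 0 x), h3]
  | succ k ih =>
    intro hv z hz hc
    obtain ⟨y, hy, hyc, hzy⟩ := h.down hτ hz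
      (mem_cobdry (hv (k + 1) (by omega) le_rfl) hc)
    rcases ih (fun m h1 h2 => hv m h1 (by omega)) y hy hyc with h1 | h1
    · left
      exact mem_of_add hzy (cu_mem_invB_left (n := k + 1) rfl h1 h.cob_mem (cob_cob 0 s))
    · right
      have h2 := cu_mem_invB_left (n := k + 1) rfl h1 h.cob_mem (cob_cob 0 s)
      rw [cu_add_left] at h2
      exact mem_trans hzy h2

/-- Multiplication by `w` is injective if the plain cohomology vanishes. -/
theorem Half.mul_notMem (hτ : τ.comp τ = ContinuousMap.id X) {s : Coch 0 X F2} (h : Half τ s)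
    {k : ℕ} (hv : ∀ u : H k X F2, u = 0) {y : Coch k X F2} (hy : y ∈ inv τ k) (hc : cob k y = 0)
    (hn : y ∉ invB τ k) : cu k 1 (k + 1) y (cob 0 s) ∉ invB τ (k + 1) := by
  intro h1
  obtain ⟨x, hx, hx'⟩ := h.exact3 hy hc h1
  apply hn
  rw [← hx']
  exact norm_cob hτ (mem_cobdry hv hx)

end General

/-! ### The involutions -/

/-- The involution `(u, v) ↦ (u, -v)`. -/
def tauP : C(PP V3, PP V3) where
  toFun p := ⟨(p.1.1, -p.1.2), p.2.1, by rw [norm_neg]; exact p.2.2.1, by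
    rw [inner_neg_right, p.2.2.2, neg_zero]⟩
  continuous_toFun := by fun_prop

theorem tauP_tauP : tauP.comp tauP = ContinuousMap.id (PP V3) := by
  ext1 p
  exact Subtype.ext (Prod.ext rfl (neg_neg _))

theorem ne_neg_of_norm {E : Type} [NormedAddCommGroup E] [NormedSpace ℝ E] {v : E}
    (hv : ‖v‖ = 1) : -v ≠ v := by
  intro h
  have h1 : (2 : ℝ) • v = 0 := by
    rw [two_smul]
    nth_rewrite 1 [← h]
    exact neg_add_cancel v
  have h2 : v = 0 := (smul_eq_zero.1 h1).resolve_left two_ne_zero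
  rw [h2, norm_zero] at hv
  exact zero_ne_one hv

theorem tauP_ne (p : PP V3) : tauP p ≠ p := by
  intro h
  exact ne_neg_of_norm (E := V3) p.2.2.1 (congrArg (fun q : PP V3 => q.1.2) h)

/-- The antipodal map of a fibre. -/
def tauF (b : Sp V3) : C(Fib b, Fib b) where
  toFun v := ⟨-(v : V3), by rw [norm_neg]; exact v.2.1, by rw [inner_neg_right, v.2.2, neg_zero]⟩
  continuous_toFun := by fun_prop

theorem tauF_tauF (b : Sp V3) : (tauF b).comp (tauF b) = ContinuousMap.id _ := by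
  ext1 p
  exact Subtype.ext (neg_neg _)

theorem fibIncl_tau (b : Sp V3) : (fibIncl b).comp (tauF b) = tauP.comp (fibIncl b) := rfl

/-- Every real inner product space of dimension `n + 1` has an odd map of its unit sphere to the
standard sphere. -/
theorem exists_odd_iso {E : Type} [NormedAddCommGroup E] [InnerProductSpace ℝ E] {n : ℕ}
    (hE : Module.finrank ℝ E = n + 1) :
    ∃ f : C(Sp E, ES n), ∃ g : C(ES n, Sp E), f.comp g = ContinuousMap.id _ ∧
      g.comp f = ContinuousMap.id _ ∧ (∀ x, f (-x) = -f x) ∧ ∀ x, g (-x) = -g x := by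
  have : FiniteDimensional ℝ E := Module.finite_of_finrank_pos (by omega)
  let L : E ≃ₗᵢ[ℝ] EuclideanSpace ℝ (Fin (n + 1)) :=
    ((stdOrthonormalBasis ℝ E).reindex (finCongr hE)).repr
  refine ⟨⟨fun x => ⟨L (x : E), by
      rw [mem_sphere_zero_iff_norm, L.norm_map]
      exact mem_sphere_zero_iff_norm.1 x.2⟩, ?_⟩, ⟨fun x => ⟨L.symm x.1, by
      rw [mem_sphere_zero_iff_norm, L.symm.norm_map]
      exact mem_sphere_zero_iff_norm.1 x.2⟩, ?_⟩, ?_, ?_, ?_, ?_⟩
  · exact (L.continuous.comp continuous_subtype_val).subtype_mk _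
  · exact (L.symm.continuous.comp continuous_subtype_val).subtype_mk _
  · ext1 x
    apply Subtype.ext
    exact L.apply_symm_apply _
  · ext1 x
    apply Subtype.ext
    exact L.symm_apply_apply _
  · intro x
    apply Subtype.ext
    exact map_neg L (x : E)
  · intro x
    apply Subtype.ext
    exact map_neg L.symm x.1

/-! ### The fibre -/

section Fibre

variable (b : Sp V3)

theorem HF_zero {k : ℕ} (hk : k ≠ 0) (hk3 : k ≠ 3) (u : H k (Fib b) F2) : u = 0 :=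
  H74.H_fib_eq_zero b hk hk3 u

theorem twoF : ∃ g : H 3 (Fib b) F2, g ≠ 0 ∧ ∀ y : H 3 (Fib b) F2, y = 0 ∨ y = g := by
  obtain ⟨w, hw, hw'⟩ := H74.two_sphere (E := KK b) (n := 2) (H74.finrank_KK b)
  have hb := H.pb_bijective_of_homeomorph (n := 3) (A := F2) (H74.fibHomeo b)
  refine ⟨H.pb (H74.fibHomeo b : C(Fib b, Sp (KK b))) w, ?_, ?_⟩
  · intro h
    apply hw
    apply hb.1
    rw [h, map_zero]
  · intro y
    obtain ⟨z, rfl⟩ := hb.2 y
    rcases hw' z with h | h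
    · left
      rw [h, map_zero]
    · right
      rw [h]

/-- `w⁴ = 0` on the fibre. -/
theorem pwr4F {s : Coch 0 (Fib b) F2} (hs : Half (tauF b) s) :
    pwr (cob 0 s) 4 ∈ invB (tauF b) 4 := by
  obtain ⟨f, -, -, -, hf, -⟩ := exists_odd_iso (E := KK b) (n := 3) (H74.finrank_KK b)
  obtain ⟨t, ht⟩ := exists_half (Invol.comp_self (TE 3)) (TE 3).free
  set F : C(Fib b, ES 3) := f.comp (H74.fibHomeo b : C(Fib b, Sp (KK b))) with hF
  have hFτ : F.comp (tauF b) = (TE 3).τ.comp F := by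
    ext1 v
    exact hf (H74.fibHomeo b v)
  have h1 : pwr (cob 0 t) 4 ∈ invB (TE 3).τ 4 :=
    invES le_rfl (pwr_mem_inv ht.cob_mem _) (cob_pwr (cob_cob 0 t) _)
  have h2 := pbC_mem_invB hFτ h1
  rw [pbC_pwr, pbC_cob] at h2
  have h3 := hs.pwr_add_mem (ht.pb hFτ) 4
  have h4 := add_mem h3 h2
  rwa [add_assoc, coch_add_self, add_zero] at h4

/-- Invariant cocycles of degree `3` on the fibre are plain coboundaries. -/
theorem inv3F {y : Coch 3 (Fib b) F2} (hy : y ∈ inv (tauF b) 3) (hc : cob 3 y = 0) :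
    y ∈ coboundaries (Fib b) F2 3 := by
  have hpc : PathConnectedSpace (Fib b) := H74.pathConnected_fib b
  obtain ⟨s, hs⟩ := exists_half (tauF_tauF b) (fun v h =>
    ne_neg_of_norm (E := V3) v.2.1 (congrArg Subtype.val h))
  have hn : pwr (cob 0 s) 3 ∉ invB (tauF b) 3 :=
    pwr_notMem (tauF_tauF b) hs (fun k h1 h2 u => HF_zero b (by omega) (by omega) u)
  obtain ⟨x, hx, hx'⟩ := hs.exact3 (pwr_mem_inv hs.cob_mem 3) (cob_pwr (cob_cob 0 s) 3)
    (pwr4F b hs)
  obtain ⟨g, -, hg⟩ := twoF b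
  have hxn : H.mk 3 ⟨x, hx⟩ ≠ (0 : H 3 (Fib b) F2) := by
    intro h
    apply hn
    rw [← hx']
    exact norm_cob (tauF_tauF b) (H.mk_eq_zero.1 h)
  have hxg : H.mk 3 ⟨x, hx⟩ = g := (hg _).resolve_left hxn
  rcases hg (H.mk 3 ⟨y, hc⟩) with h | h
  · exact H.mk_eq_zero.1 h
  · exfalso
    rw [← hxg, H.mk_eq_mk] at h
    change y - x ∈ coboundaries (Fib b) F2 3 at h
    rw [coch_sub] at h
    have h1 := norm_cob (tauF_tauF b) h
    apply hn
    rw [map_add, mem_inv.1 hy] at h1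
    have e : y + x + (y + pbC 3 (tauF b) x) = (y + y) + (x + pbC 3 (tauF b) x) := by abel
    rwa [e, coch_add_self, zero_add, hx'] at h1

end Fibre

/-! ### The space of pairs -/

theorem HP_zero {k : ℕ} (hk : k = 1 ∨ k = 2 ∨ k = 4 ∨ k = 6 ∨ k = 7) (u : H k (PP V3) F2) :
    u = 0 := H74.H_P_eq_zero hk u

theorem nonempty_Sp : Nonempty (Sp V3) := H74.sphere_nonempty (n := 5) H74.finrank_V3

/-- Invariant cocycles of degree `3` are plain coboundaries. -/
theorem inv3P {y : Coch 3 (PP V3) F2} (hy : y ∈ inv tauP 3) (hc : cob 3 y = 0) :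
    y ∈ coboundaries (PP V3) F2 3 := by
  obtain ⟨b⟩ := nonempty_Sp
  have h1 := inv3F b (pbC_mem_inv (fibIncl_tau b) hy) (by rw [← pbC_cob, hc, map_zero])
  refine (H.mk_eq_zero (z := (⟨y, hc⟩ : cocycles (PP V3) F2 3))).1 ?_
  apply (H74.fib_bijective (A := F2) b).1
  rw [map_zero, H.pb_mk, H.mk_eq_zero]
  exact h1

section Pairs

variable {s : Coch 0 (PP V3) F2} (hs : Half tauP s)

include hs

theorem low2 [PathConnectedSpace (PP V3)] {z : Coch 2 (PP V3) F2} (hz : z ∈ inv tauP 2)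
    (hc : cob 2 z = 0) : z ∈ invB tauP 2 ∨ z + pwr (cob 0 s) 2 ∈ invB tauP 2 :=
  hs.low tauP_tauP 2 (fun m h1 h2 u => HP_zero (by omega) u) z hz hc

theorem low3 [PathConnectedSpace (PP V3)] {z : Coch 3 (PP V3) F2} (hz : z ∈ inv tauP 3)
    (hc : cob 3 z = 0) : z ∈ invB tauP 3 ∨ z + pwr (cob 0 s) 3 ∈ invB tauP 3 := by
  obtain ⟨y, hy, hyc, hzy⟩ := hs.down tauP_tauP hz (inv3P hz hc)
  rcases low2 hs hy hyc with h1 | h1
  · left
    exact mem_of_add hzy (cu_mem_invB_left (n := 3) rfl h1 hs.cob_mem (cob_cob 0 s))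
  · right
    have h2 := cu_mem_invB_left (n := 3) rfl h1 hs.cob_mem (cob_cob 0 s)
    rw [cu_add_left] at h2
    exact mem_trans hzy h2

/-- A cocycle of degree `3` with transfer `w³`. -/
theorem exists_x3 [PathConnectedSpace (PP V3)] : ∃ x : Coch 3 (PP V3) F2, cob 3 x = 0 ∧
    x + pbC 3 tauP x + pwr (cob 0 s) 3 ∈ invB tauP 3 := by
  obtain ⟨b⟩ := nonempty_Sp
  obtain ⟨g, hg, -⟩ := twoF b
  obtain ⟨c, hc⟩ := (H74.fib_bijective (A := F2) b).2 g
  obtain ⟨⟨x, hx⟩, rfl⟩ := H.mk_surjective 3 c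
  have hx0 : cob 3 x = 0 := hx
  refine ⟨x, hx, ?_⟩
  rcases low3 hs (norm_mem_inv tauP_tauP x) (by
    rw [map_add, ← pbC_cob, hx0, map_zero, add_zero]) with h | h
  · exfalso
    obtain ⟨x', hx', hxc', hb⟩ := hs.exact2 hx0 h
    have h1 := inv3P hx' hxc'
    have h2 : x ∈ coboundaries (PP V3) F2 3 := by
      exact mem_of_add hb h1
    apply hg
    rw [← hc, show H.mk 3 ⟨x, hx⟩ = (0 : H 3 (PP V3) F2) from H.mk_eq_zero.2 h2, map_zero]
  · exact h

/-- `w⁴ = 0`. -/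
theorem pwr4P [PathConnectedSpace (PP V3)] : pwr (cob 0 s) 4 ∈ invB tauP 4 := by
  obtain ⟨x, hx, h⟩ := exists_x3 hs
  have h1 := hs.norm_mul tauP_tauP hx
  have h2 := cu_mem_invB_left (n := 4) rfl h hs.cob_mem (cob_cob 0 s)
  rw [cu_add_left] at h2
  have h3 := add_mem h1 h2
  rwa [← add_assoc, coch_add_self, zero_add] at h3

theorem zero4P [PathConnectedSpace (PP V3)] {z : Coch 4 (PP V3) F2} (hz : z ∈ inv tauP 4)
    (hc : cob 4 z = 0) : z ∈ invB tauP 4 := by
  obtain ⟨y, hy, hyc, hzy⟩ := hs.down tauP_tauP hz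
    (mem_cobdry (fun u => HP_zero (by omega) u) hc)
  have h2 : cu 3 1 4 y (cob 0 s) ∈ invB tauP 4 := by
    rcases low3 hs hy hyc with h1 | h1
    · exact cu_mem_invB_left (n := 4) rfl h1 hs.cob_mem (cob_cob 0 s)
    · have h2 := cu_mem_invB_left (n := 4) rfl h1 hs.cob_mem (cob_cob 0 s)
      rw [cu_add_left] at h2
      exact mem_of_add h2 (pwr4P hs)
  exact mem_of_add hzy h2

theorem pwr6P [PathConnectedSpace (PP V3)] : pwr (cob 0 s) 6 ∈ invB tauP 6 := by
  rw [← pwr_add (cob 0 s) 4 2]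
  exact cu_mem_invB_left rfl (pwr4P hs) (pwr_mem_inv hs.cob_mem 2) (cob_pwr (cob_cob 0 s) 2)

/-- The class `β`. -/
theorem five [PathConnectedSpace (PP V3)] {β : Coch 5 (PP V3) F2} (hβ : β ∈ inv tauP 5)
    (hβ' : ∀ z : Coch 5 (PP V3) F2, cob 5 z = 0 →
      z ∈ coboundaries (PP V3) F2 5 ∨ z + β ∈ coboundaries (PP V3) F2 5)
    {z : Coch 5 (PP V3) F2} (hz : z ∈ inv tauP 5) (hc : cob 5 z = 0) :
    z ∈ invB tauP 5 ∨ z + β ∈ invB tauP 5 := by
  have key : ∀ y ∈ inv tauP 5, y ∈ coboundaries (PP V3) F2 5 → y ∈ invB tauP 5 := by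
    intro y hy hyb
    obtain ⟨x, hx, hxc, hyx⟩ := hs.down tauP_tauP hy hyb
    exact mem_of_add hyx
      (cu_mem_invB_left (n := 5) rfl (zero4P hs hx hxc) hs.cob_mem (cob_cob 0 s))
  rcases hβ' z hc with h | h
  · exact Or.inl (key z hz h)
  · exact Or.inr (key _ (add_mem hz hβ) h)

theorem six [PathConnectedSpace (PP V3)] {β : Coch 5 (PP V3) F2} (hβ : β ∈ inv tauP 5)
    (hβc : cob 5 β = 0) (hβn : β ∉ coboundaries (PP V3) F2 5)
    (hβ' : ∀ z : Coch 5 (PP V3) F2, cob 5 z = 0 →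
      z ∈ coboundaries (PP V3) F2 5 ∨ z + β ∈ coboundaries (PP V3) F2 5) :
    cu 5 1 6 β (cob 0 s) ∉ invB tauP 6 := by
  intro h
  obtain ⟨x, hx, hx'⟩ := hs.exact3 hβ hβc h
  apply hβn
  apply invB_le_coboundaries
  rcases hβ' x hx with h1 | h1
  · rw [← hx']
    exact norm_cob tauP_tauP h1
  · have h2 := norm_cob tauP_tauP h1
    rw [map_add, mem_inv.1 hβ] at h2
    have e : x + β + (pbC 5 tauP x + β) = (x + pbC 5 tauP x) + (β + β) := by abel
    rwa [e, coch_add_self, add_zero, hx'] at h2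

theorem seven [PathConnectedSpace (PP V3)] {β : Coch 5 (PP V3) F2} (hβ : β ∈ inv tauP 5)
    (hβc : cob 5 β = 0) (hβn : β ∉ coboundaries (PP V3) F2 5)
    (hβ' : ∀ z : Coch 5 (PP V3) F2, cob 5 z = 0 →
      z ∈ coboundaries (PP V3) F2 5 ∨ z + β ∈ coboundaries (PP V3) F2 5) :
    cu 5 2 7 β (pwr (cob 0 s) 2) ∉ invB tauP 7 := by
  have e : cu 5 2 7 β (pwr (cob 0 s) 2) = cu 6 1 7 (cu 5 1 6 β (cob 0 s)) (cob 0 s) := by
    rw [pwr_succ, show pwr (cob 0 s) 1 = cob 0 s from one0_cu 1 _]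
    exact (cu_assoc (p := 5) (q := 1) (r := 1) (m := 6) (l := 2) (n := 7) rfl rfl rfl _ _ _).symm
  rw [e]
  refine hs.mul_notMem tauP_tauP (fun u => HP_zero (by omega) u) (cu_mem_inv hβ hs.cob_mem) ?_
    (six hs hβ hβc hβn hβ')
  rw [cob_cu (p := 5) (q := 1) (n := 6) rfl, hβc, cob_cob, cu_zero_left, cu_zero_right, add_zero]

theorem eight [PathConnectedSpace (PP V3)] {β : Coch 5 (PP V3) F2} (hβ : β ∈ inv tauP 5)
    (hβc : cob 5 β = 0) (hβn : β ∉ coboundaries (PP V3) F2 5)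
    (hβ' : ∀ z : Coch 5 (PP V3) F2, cob 5 z = 0 →
      z ∈ coboundaries (PP V3) F2 5 ∨ z + β ∈ coboundaries (PP V3) F2 5) :
    cu 5 3 8 β (pwr (cob 0 s) 3) ∉ invB tauP 8 := by
  have e : cu 5 3 8 β (pwr (cob 0 s) 3) =
      cu 7 1 8 (cu 5 2 7 β (pwr (cob 0 s) 2)) (cob 0 s) := by
    rw [pwr_succ]
    exact (cu_assoc (p := 5) (q := 2) (r := 1) (m := 7) (l := 3) (n := 8) rfl rfl rfl _ _ _).symm
  rw [e]
  refine hs.mul_notMem tauP_tauP (fun u => HP_zero (by omega) u)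
    (cu_mem_inv hβ (pwr_mem_inv hs.cob_mem 2)) ?_ (seven hs hβ hβc hβn hβ')
  rw [cob_cu (p := 5) (q := 2) (n := 7) rfl, hβc, cob_pwr (cob_cob 0 s), cu_zero_left, cu_zero_right, add_zero]

/-- `β ∪ x₃ ≠ 0`. -/
theorem exists_top [PathConnectedSpace (PP V3)] : ∃ x : Coch 3 (PP V3) F2, cob 3 x = 0 ∧
    ∀ β ∈ inv tauP 5, cob 5 β = 0 → β ∉ coboundaries (PP V3) F2 5 →
    (∀ z : Coch 5 (PP V3) F2, cob 5 z = 0 →
      z ∈ coboundaries (PP V3) F2 5 ∨ z + β ∈ coboundaries (PP V3) F2 5) →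
    cu 5 3 8 β x ∉ coboundaries (PP V3) F2 8 := by
  obtain ⟨x, hx, hx'⟩ := exists_x3 hs
  refine ⟨x, hx, fun β hβ hβc hβn hβ' h => ?_⟩
  apply eight hs hβ hβc hβn hβ'
  have h1 := norm_cob tauP_tauP h
  rw [pbC_cu, mem_inv.1 hβ, ← cu_add_right] at h1
  have h2 := cu_mem_invB_right (n := 8) rfl hβ hβc hx'
  rw [cu_add_right] at h2
  have h3 := add_mem h1 h2
  rwa [← add_assoc, coch_add_self, zero_add] at h3

end Pairs

end

end Pool.Agent.Lib.MP_89fcdb_gt.H83
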