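import Pool.Agent.Lib.MP_89fcdb_gt.H83.Van
import Pool.Agent.Lib.MP_89fcdb_gt.Interfaces
import Pool.Agent.Lib.MP_904b2a_gt.SCell
import Pool.Agent.Lib.MP_904b2a_gt.H44.Cell

/-!
# MP_89fcdb_gt, module SPH: the antipodal map of the sphere
-/

open scoped BigOperators
open Set Topology

namespace Pool.Agent.Lib.MP_89fcdb_gt.H83

open Pool.Agent.Lib.MP_904b2a_gt

noncomputable section

/-- The antipodal map of `ℝ^n ∖ 0`. -/
def negV (n : ℕ) : C(VV n, VV n) := ⟨fun x => ⟨-x.1, neg_ne_zero.2 x.2⟩, by
  exact (continuous_subtype_val.neg).subtype_mk _⟩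

theorem negV_negV (n : ℕ) : (negV n).comp (negV n) = ContinuousMap.id _ := by
  ext1 x
  exact Subtype.ext (neg_neg _)

section Step

variable {n : ℕ}

/-- The vectors with non-zero last coordinate. -/
def SU (n : ℕ) : Set (VV (n + 1)) := {x | la x.1 ≠ 0}

/-- The vectors whose first coordinates do not all vanish. -/
def SW (n : ℕ) : Set (VV (n + 1)) := {x | ini x.1 ≠ 0}

/-- The vectors with positive last coordinate. -/
def SUP (n : ℕ) : Set (VV (n + 1)) := {x | 0 < la x.1}

/-- The vectors with positive last coordinate whose first coordinates do not all vanish. -/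
def SIP (n : ℕ) : Set (VV (n + 1)) := {x | 0 < la x.1 ∧ ini x.1 ≠ 0}

theorem sn_ne_of_pos {y : Fin n → ℝ} {t : ℝ} (h : 0 < t) : sn y t ≠ 0 := by
  intro h0
  have := congrArg la h0
  rw [la_sn, la_zero] at this
  rw [this] at h
  exact lt_irrefl _ h

theorem HSUP_eq_zero (k : ℕ) (u : H (k + 1) (SUP n) F2) : u = 0 := by
  have : ContractibleSpace (SUP n) := by
    let A : Set (Fin (n + 1) → ℝ) := {x | 0 < la x}
    have hA : ContractibleSpace A := by
      refine Convex.contractibleSpace ?_ ⟨sn 0 1, by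
        change 0 < la (sn 0 1)
        rw [la_sn]
        exact one_pos⟩
      intro x hx y hy a b ha hb hab
      change 0 < la (a • x + b • y)
      have hx' : 0 < la x := hx
      have hy' : 0 < la y := hy
      rw [la_add, la_smul, la_smul]
      rcases eq_or_lt_of_le ha with h | h
      · have hb1 : b = 1 := by linarith
        rw [← h, hb1]
        linarith
      · have := mul_pos h hx'
        have := mul_nonneg hb hy'.le
        linarith
    have e : SUP n ≃ₜ A :=
      { toFun := fun x => ⟨x.1.1, x.2⟩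
        invFun := fun x => ⟨⟨x.1, fun h0 => by
          have h : 0 < la x.1 := x.2
          rw [h0, la_zero] at h
          exact lt_irrefl _ h⟩, x.2⟩
        left_inv := fun x => rfl
        right_inv := fun x => rfl
        continuous_toFun := by
          exact (continuous_subtype_val.comp continuous_subtype_val).subtype_mk _
        continuous_invFun := by
          exact (continuous_subtype_val.subtype_mk _).subtype_mk _ }
    exact e.contractibleSpace
  exact H.eq_zero_of_contractible k u

/-- The projection of `SIP`. -/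
def rP : C(SIP n, VV n) := ⟨fun x => ⟨ini x.1.1, x.2.2⟩, by
  exact (continuous_ini.comp (continuous_subtype_val.comp continuous_subtype_val)).subtype_mk _⟩

/-- The section of `rP`. -/
def iPP : C(VV n, SIP n) := ⟨fun y => ⟨⟨sn y.1 1, sn_ne_of_pos one_pos⟩, by
    change 0 < la (sn y.1 1)
    rw [la_sn]
    exact one_pos, by
    change ini (sn y.1 1) ≠ 0
    rw [ini_sn]
    exact y.2⟩, by
  exact ((continuous_sn continuous_subtype_val continuous_const).subtype_mk _).subtype_mk _⟩

/-- The homotopy from `iPP ∘ rP` to the identity. -/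
def hP : ((iPP (n := n)).comp rP).Homotopy (ContinuousMap.id _) where
  toFun p := ⟨⟨sn (ini p.2.1.1) ((1 - (p.1 : ℝ)) + (p.1 : ℝ) * la p.2.1.1), by
      apply sn_ne_of_pos
      have h0 := p.1.2.1
      have h1 := p.1.2.2
      have h2 : 0 < la p.2.1.1 := p.2.2.1
      rcases eq_or_lt_of_le h0 with h | h
      · rw [← h]
        norm_num
      · have := mul_pos h h2
        linarith⟩, by
      change 0 < la (sn _ _)
      rw [la_sn]
      have h0 := p.1.2.1
      have h1 := p.1.2.2
      have h2 : 0 < la p.2.1.1 := p.2.2.1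
      rcases eq_or_lt_of_le h0 with h | h
      · rw [← h]
        norm_num
      · have := mul_pos h h2
        linarith, by
      change ini (sn _ _) ≠ 0
      rw [ini_sn]
      exact p.2.2.2⟩
  continuous_toFun := by
    refine Continuous.subtype_mk (Continuous.subtype_mk ?_ _) _
    refine continuous_sn (continuous_ini.comp
      (continuous_subtype_val.comp (continuous_subtype_val.comp continuous_snd))) ?_
    exact (continuous_const.sub (continuous_subtype_val.comp continuous_fst)).add
      ((continuous_subtype_val.comp continuous_fst).mul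
      (continuous_la.comp (continuous_subtype_val.comp (continuous_subtype_val.comp
        continuous_snd))))
  map_zero_left x := by
    apply Subtype.ext
    apply Subtype.ext
    change sn (ini x.1.1) ((1 - ((0 : unitInterval) : ℝ)) +
      ((0 : unitInterval) : ℝ) * la x.1.1) = sn (ini x.1.1) 1
    rw [Set.Icc.coe_zero, zero_mul, sub_zero, add_zero]
  map_one_left x := by
    apply Subtype.ext
    apply Subtype.ext
    change sn (ini x.1.1) ((1 - ((1 : unitInterval) : ℝ)) +
      ((1 : unitInterval) : ℝ) * la x.1.1) = x.1.1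
    rw [Set.Icc.coe_one, one_mul, sub_self, zero_add, sn_ini_la]

theorem HSIP_eq_zero {k : ℕ} (hk : n ≤ k) (u : H k (SIP n) F2) : u = 0 := by
  have hb : Function.Bijective (H.pb (n := k) (A := F2) (rP (n := n))) :=
    H.pb_bijective ⟨hP⟩ (by
      have : (rP (n := n)).comp iPP = ContinuousMap.id _ := by
        ext1 y
        exact Subtype.ext (ini_sn _ _)
      rw [this])
  obtain ⟨v, rfl⟩ := hb.2 u
  rw [HVV_eq_zero n k hk v, map_zero]

/-- The inclusion of `ℝ^n ∖ 0`. -/
def iV : C(VV n, VV (n + 1)) := ⟨fun y => ⟨sn y.1 0, fun h0 => y.2 (by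
    rw [← ini_sn y.1 0, h0, ini_zero])⟩, by
  exact (continuous_sn continuous_subtype_val continuous_const).subtype_mk _⟩

/-- The projection of `SW`. -/
def rW : C(SW n, VV n) := ⟨fun x => ⟨ini x.1.1, x.2⟩, by
  exact (continuous_ini.comp (continuous_subtype_val.comp continuous_subtype_val)).subtype_mk _⟩

/-- The homotopy from `iV ∘ rW` to the inclusion of `SW`. -/
def hW : ((iV (n := n)).comp rW).Homotopy (incl (SW n)) where
  toFun p := ⟨sn (ini p.2.1.1) ((p.1 : ℝ) * la p.2.1.1), fun h0 => p.2.2 (by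
    rw [← ini_sn (ini p.2.1.1) ((p.1 : ℝ) * la p.2.1.1), h0, ini_zero])⟩
  continuous_toFun := by
    refine Continuous.subtype_mk ?_ _
    refine continuous_sn (continuous_ini.comp
      (continuous_subtype_val.comp (continuous_subtype_val.comp continuous_snd))) ?_
    exact (continuous_subtype_val.comp continuous_fst).mul
      (continuous_la.comp (continuous_subtype_val.comp (continuous_subtype_val.comp
        continuous_snd)))
  map_zero_left x := by
    apply Subtype.ext
    change sn (ini x.1.1) (((0 : unitInterval) : ℝ) * la x.1.1) = sn (ini x.1.1) 0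
    rw [Set.Icc.coe_zero, zero_mul]
  map_one_left x := by
    apply Subtype.ext
    change sn (ini x.1.1) (((1 : unitInterval) : ℝ) * la x.1.1) = x.1.1
    rw [Set.Icc.coe_one, one_mul, sn_ini_la]

theorem sn_neg (y : Fin n → ℝ) (t : ℝ) : sn (-y) (-t) = -sn y t :=
  ext_ini_la (by rw [ini_sn, ini_neg, ini_sn]) (by rw [la_sn, la_neg, la_sn])

theorem mem_SU_neg (x : VV (n + 1)) : negV _ x ∈ SU n ↔ x ∈ SU n := by
  change la (-x.1) ≠ 0 ↔ la x.1 ≠ 0
  rw [la_neg, neg_ne_zero]

theorem mem_SW_neg (x : VV (n + 1)) : negV _ x ∈ SW n ↔ x ∈ SW n := by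
  change ini (-x.1) ≠ 0 ↔ ini x.1 ≠ 0
  rw [ini_neg, neg_ne_zero]

theorem isOpen_SU : IsOpen (SU n) :=
  isOpen_ne.preimage (continuous_la.comp continuous_subtype_val)

theorem isOpen_SW : IsOpen (SW n) :=
  isOpen_ne.preimage (continuous_ini.comp continuous_subtype_val)

theorem isOpen_SUP : IsOpen (SUP n) :=
  isOpen_lt continuous_const (continuous_la.comp continuous_subtype_val)

theorem isOpen_SIP : IsOpen (SIP n) := isOpen_SUP.inter isOpen_SW

/-- **The invariant cohomology of `ℝ^n ∖ 0` vanishes in degrees `≥ n`.** -/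
theorem invVV : ∀ (n k : ℕ), n ≤ k → ∀ z ∈ inv (negV n) k, cob k z = 0 → z ∈ invB (negV n) k := by
  intro n
  induction n with
  | zero =>
    intro k _ z _ _
    have : z = 0 := by
      funext σ
      exact isEmptyElim (σ (stdSimplex.vertex 0))
    rw [this]
    exact zero_mem _
  | succ n ih =>
    intro k hk z hz hc
    obtain ⟨k, rfl⟩ : ∃ m, k = m + 1 := ⟨k - 1, by omega⟩
    refine mem_invB_of_cover (τ := negV (n + 1)) (U := SU n) (W := SW n) isOpen_SU isOpen_SW ?_
      mem_SU_neg mem_SW_neg hz hc ?_ ?_ ?_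
    · rw [eq_univ_iff_forall]
      intro x
      by_cases h : la x.1 = 0
      · right
        intro h'
        exact x.2 (ext_ini_la h' h)
      · exact Or.inl h
    · obtain ⟨e, ⟨ψ, hψ, rfl⟩, he⟩ := free_double (τ := negV (n + 1)) (negV_negV _) (S := SU n)
        (SP := SUP n) isOpen_SUP (by
          intro x hx
          rcases lt_or_gt_of_ne (show la x.1 ≠ 0 from hx) with h | h
          · right
            change 0 < la (-x.1)
            rw [la_neg]
            linarith
          · exact Or.inl h) (fun x hx => ne_of_gt hx) (by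
          intro x hx hx'
          have h1 : 0 < la x.1 := hx
          have h2 : 0 < la (-x.1) := hx'
          rw [la_neg] at h2
          linarith) (HSUP_eq_zero k) hz (fun σ _ => by rw [hc]; rfl)
      exact ⟨ψ, hψ, fun σ hσ => (he σ hσ).symm⟩
    · -- the part over `ℝ^n ∖ 0`
      have hiV : (iV (n := n)).comp (negV n) = (negV (n + 1)).comp iV := by
        ext1 x
        apply Subtype.ext
        change sn (-x.1) 0 = -sn x.1 0
        rw [← sn_neg, neg_zero]
      have h1 := ih (k + 1) (by omega) (pbC (k + 1) iV z) (pbC_mem_inv hiV hz) (by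
        rw [← pbC_cob, hc, map_zero])
      have hτW : MapsTo (negV (n + 1)) (SW n) (SW n) := fun x hx => (mem_SW_neg x).2 hx
      have hrW : (rW (n := n)).comp (resMap (negV (n + 1)) hτW) = (negV n).comp rW := by
        ext1 x
        apply Subtype.ext
        exact ini_neg _
      have h2 := pbC_mem_invB hrW h1
      have h3 := pbC_add_mem_invB (τ := resMap (negV (n + 1)) hτW) (τ' := negV (n + 1)) hW (by
        intro t x
        apply Subtype.ext
        change sn (ini (-x.1.1)) ((t : ℝ) * la (-x.1.1)) =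
          -sn (ini x.1.1) ((t : ℝ) * la x.1.1)
        rw [ini_neg, la_neg, mul_neg, sn_neg]) hz hc
      have h4 := add_mem h2 h3
      have h5 : pbC (k + 1) rW (pbC (k + 1) iV z) +
          (pbC (k + 1) (iV.comp rW) z + pbC (k + 1) (incl (SW n)) z) =
          pbC (k + 1) (incl (SW n)) z := by
        rw [show pbC (k + 1) (iV.comp rW) z = pbC (k + 1) rW (pbC (k + 1) iV z) from rfl,
          ← add_assoc, coch_add_self, zero_add]
      rw [h5] at h4
      obtain ⟨ψ, hψ, e⟩ := h4
      refine ⟨ext0 (SW n) ψ, ext0_mem_inv mem_SW_neg hψ, fun σ hσ => ?_⟩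
      rw [cob_ext0 ψ hσ, e]
      rfl
    · intro d hd hdc
      refine free_double (τ := negV (n + 1)) (negV_negV _) (S := SU n ∩ SW n) (SP := SIP n)
        isOpen_SIP ?_ ?_ ?_ (HSIP_eq_zero (by omega)) hd hdc
      · rintro x ⟨h1, h2⟩
        rcases lt_or_gt_of_ne (show la x.1 ≠ 0 from h1) with h | h
        · right
          refine ⟨?_, (mem_SW_neg x).2 h2⟩
          change 0 < la (-x.1)
          rw [la_neg]
          linarith
        · exact Or.inl ⟨h, h2⟩
      · rintro x ⟨h1, h2⟩
        exact ⟨ne_of_gt h1, h2⟩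
      · rintro x ⟨h1, _⟩ ⟨h2, _⟩
        have h1' : 0 < la x.1 := h1
        have h2' : 0 < la (-x.1) := h2
        rw [la_neg] at h2'
        linarith

end Step

/-! ### The unit sphere -/

/-- The inclusion of the unit sphere. -/
def iS (n : ℕ) : C(ES n, VV (n + 1)) := ⟨fun x => ⟨(x.1 : EuclideanSpace ℝ (Fin (n + 1))).ofLp, by
    intro h
    have h1 : (x.1 : EuclideanSpace ℝ (Fin (n + 1))) = 0 := by
      ext i
      exact congrFun h i
    have h2 : ‖(x.1 : EuclideanSpace ℝ (Fin (n + 1)))‖ = 1 := mem_sphere_zero_iff_norm.mp x.2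
    rw [h1, norm_zero] at h2
    exact zero_ne_one h2⟩, by
  exact ((PiLp.continuous_ofLp 2 _).comp continuous_subtype_val).subtype_mk _⟩

theorem toLp_ne {n : ℕ} (x : VV n) : (WithLp.toLp 2 x.1 : EuclideanSpace ℝ (Fin n)) ≠ 0 := by
  intro h
  apply x.2
  funext i
  exact congrArg (fun v : EuclideanSpace ℝ (Fin n) => v i) h

/-- The radial projection onto the unit sphere. -/
def rS (n : ℕ) : C(VV (n + 1), ES n) := ⟨fun x =>
    ⟨‖(WithLp.toLp 2 x.1 : EuclideanSpace ℝ (Fin (n + 1)))‖⁻¹ •
      (WithLp.toLp 2 x.1 : EuclideanSpace ℝ (Fin (n + 1))), by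
    rw [mem_sphere_zero_iff_norm, norm_smul, norm_inv, norm_norm]
    exact inv_mul_cancel₀ (norm_ne_zero_iff.2 (toLp_ne x))⟩, by
  have h : Continuous fun x : VV (n + 1) =>
      (WithLp.toLp 2 x.1 : EuclideanSpace ℝ (Fin (n + 1))) :=
    (PiLp.continuous_toLp 2 _).comp continuous_subtype_val
  exact ((h.norm.inv₀ fun x => norm_ne_zero_iff.2 (toLp_ne x)).smul h).subtype_mk _⟩

theorem rS_iS (n : ℕ) : (rS n).comp (iS n) = ContinuousMap.id _ := by
  ext1 x
  apply Subtype.ext
  change ‖(x.1 : EuclideanSpace ℝ (Fin (n + 1)))‖⁻¹ • (x.1 : EuclideanSpace ℝ (Fin (n + 1))) = x.1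
  have h2 : ‖(x.1 : EuclideanSpace ℝ (Fin (n + 1)))‖ = 1 := mem_sphere_zero_iff_norm.mp x.2
  rw [h2, inv_one, one_smul]

theorem iS_neg (n : ℕ) : (iS n).comp (TE n).τ = (negV (n + 1)).comp (iS n) := rfl

theorem rS_neg (n : ℕ) : (rS n).comp (negV (n + 1)) = (TE n).τ.comp (rS n) := by
  ext1 x
  apply Subtype.ext
  change ‖(WithLp.toLp 2 (-x.1) : EuclideanSpace ℝ (Fin (n + 1)))‖⁻¹ •
      (WithLp.toLp 2 (-x.1) : EuclideanSpace ℝ (Fin (n + 1))) =
    -(‖(WithLp.toLp 2 x.1 : EuclideanSpace ℝ (Fin (n + 1)))‖⁻¹ •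
      (WithLp.toLp 2 x.1 : EuclideanSpace ℝ (Fin (n + 1))))
  rw [WithLp.toLp_neg, norm_neg, smul_neg]

/-- The invariant cohomology of the sphere vanishes above the dimension. -/
theorem invES {n k : ℕ} (hk : n + 1 ≤ k) {z : Coch k (ES n) F2} (hz : z ∈ inv (TE n).τ k)
    (hc : cob k z = 0) : z ∈ invB (TE n).τ k := by
  have h1 := invVV (n + 1) k hk (pbC k (rS n) z) (pbC_mem_inv (rS_neg n) hz) (by
    rw [← pbC_cob, hc, map_zero])
  have h2 := pbC_mem_invB (iS_neg n) h1
  have h3 : pbC k (iS n) (pbC k (rS n) z) = z := by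
    change pbC k ((rS n).comp (iS n)) z = z
    rw [rS_iS]
    rfl
  rwa [h3] at h2

/-! ### The powers of `w` -/

/-- Zero-cocycles of path connected spaces are constant. -/
theorem coch0_const {X : Type} [TopologicalSpace X] [PathConnectedSpace X] {x : Coch 0 X F2}
    (hx : cob 0 x = 0) (σ σ' : C(Simp 0, X)) : x σ = x σ' := by
  have key : ∀ p q : X, x (cs 0 p) = x (cs 0 q) := by
    intro p q
    have h : (ContinuousMap.const Unit p).Homotopic (ContinuousMap.const Unit q) :=
      ContinuousMap.homotopic_const_iff.mpr (PathConnectedSpace.joined p q)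
    have h2 := H.pb_eq_of_homotopic h (H.mk 0 ⟨x, hx⟩)
    rw [H.pb_mk, H.pb_mk, H.mk_eq_mk] at h2
    have h3 : pbC 0 (ContinuousMap.const Unit p) x - pbC 0 (ContinuousMap.const Unit q) x = 0 := h2
    exact congrFun (sub_eq_zero.1 h3) (cs 0 ())
  rw [zero_simplex_eq σ, zero_simplex_eq σ']
  exact key _ _

/-- Non-vanishing of the powers of `w` below the first non-zero plain cohomology group. -/
theorem pwr_notMem {X : Type} [TopologicalSpace X] [PathConnectedSpace X] {τ : C(X, X)}
    (hτ : τ.comp τ = ContinuousMap.id X) {s : Coch 0 X F2} (hs : Half τ s) {n : ℕ}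
    (hv : ∀ k, 1 ≤ k → k < n → ∀ u : H k X F2, u = 0) : pwr (cob 0 s) n ∉ invB τ n := by
  induction n with
  | zero =>
    intro h
    have h0 : (one0 : Coch 0 X F2) = 0 := h
    have x : X := Classical.arbitrary X
    exact one_ne_zero (congrFun h0 (cs 0 x))
  | succ n ih =>
    intro h
    have hca : cob 1 (cob 0 s) = 0 := cob_cob 0 s
    obtain ⟨x, hx, hx'⟩ := hs.exact3 (pwr_mem_inv hs.cob_mem n) (cob_pwr hca n) h
    cases n with
    | zero =>
      have p : X := Classical.arbitrary X
      have h1 : x (cs 0 p) + x (τ.comp (cs 0 p)) = 1 := congrFun hx' (cs 0 p)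
      rw [coch0_const hx (τ.comp (cs 0 p)) (cs 0 p), add_self_F2] at h1
      exact zero_ne_one h1
    | succ n =>
      refine ih (fun k h1 h2 => hv k h1 (by omega)) ?_
      have hb : x ∈ coboundaries X F2 (n + 1) :=
        H.mk_eq_zero.1 (hv (n + 1) (by omega) (by omega) (H.mk (n + 1) ⟨x, hx⟩))
      rw [← hx']
      exact norm_cob hτ hb

theorem cohSphere (n : ℕ) (hn : 1 ≤ n) : IsCohSphere n (ES n) :=
  ((sphereCoh_of H44.sphereCellStatement).1 n hn).1

instance (n : ℕ) : PathConnectedSpace (ES (n + 1)) := by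
  have h : IsPathConnected (Metric.sphere (0 : EuclideanSpace ℝ (Fin (n + 1 + 1))) 1) := by
    refine isPathConnected_sphere ?_ 0 zero_le_one
    have h1 : 1 < Module.finrank ℝ (EuclideanSpace ℝ (Fin (n + 1 + 1))) := by
      rw [finrank_euclideanSpace_fin]
      omega
    have h2 := Module.lt_rank_of_lt_finrank h1
    simpa using h2
  exact isPathConnected_iff_pathConnectedSpace.mp h

/-- **Module SPH.** -/
theorem sphStatement : SphStatement := by
  intro n hn
  obtain ⟨n, rfl⟩ : ∃ m, n = m + 1 := ⟨n - 1, by omega⟩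
  have C := cohSphere (n + 1) (by omega)
  refine ⟨fun m h1 h2 u => C.vanish F2 m h1 h2 u, ?_, ?_⟩
  · obtain ⟨e, -⟩ := C.top
    refine ⟨(e F2).symm 1, ?_, fun u => ?_⟩
    · intro h
      rw [AddEquiv.symm_apply_eq, map_zero] at h
      exact one_ne_zero h
    · have h2 : ∀ a : F2, a = 0 ∨ a = 1 := by decide
      rcases h2 (e F2 u) with h | h
      · left
        exact (e F2).injective (by rw [h, map_zero])
      · right
        rw [← h, AddEquiv.symm_apply_apply]
  · intro s hs
    have hs' := (sep_iff _).1 hs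
    have hca : cob 1 (cob 0 s) = 0 := cob_cob 0 s
    refine ⟨?_, ?_, ?_⟩
    · rw [bi_iff, pw_eq_pwr]
      exact invES le_rfl (pwr_mem_inv hs'.cob_mem _) (cob_pwr hca _)
    · intro m hm c hc hb
      obtain rfl : m = n := by omega
      rw [hc, bi_iff, pw_eq_pwr] at hb
      exact pwr_notMem (Invol.comp_self _) hs'
        (fun k h1 h2 u => C.vanish F2 k h1 (by omega) u) hb
    · intro m hm c hc
      rw [bi_iff]
      exact invES (by omega) ((isInv_iff _).1 hc.1) hc.2

end

end Pool.Agent.Lib.MP_89fcdb_gt.H83
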