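import Pool.Agent.Lib.MP_89fcdb_gt.H83.ESmall
import Pool.Agent.Lib.MP_904b2a_gt.H83.Circle

/-!
# MP_89fcdb_gt: vanishing of the plain and of the invariant cohomology of `ℝ^n ∖ 0` in degrees `≥ n`
-/

open scoped BigOperators
open Set Topology

namespace Pool.Agent.Lib.MP_89fcdb_gt.H83

open Pool.Agent.Lib.MP_904b2a_gt Pool.Agent.Lib.MP_904b2a_gt.H83

noncomputable section

/-- The non-zero vectors of `ℝ^n`. -/
def VV (n : ℕ) : Set (Fin n → ℝ) := {x | x ≠ 0}

/-- The first `n` coordinates. -/
def ini {n : ℕ} (x : Fin (n + 1) → ℝ) : Fin n → ℝ := fun i => x i.castSucc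

/-- The last coordinate. -/
def la {n : ℕ} (x : Fin (n + 1) → ℝ) : ℝ := x (Fin.last n)

/-- The vector with given first and last coordinates. -/
def sn {n : ℕ} (y : Fin n → ℝ) (t : ℝ) : Fin (n + 1) → ℝ := Fin.snoc (α := fun _ => ℝ) y t

variable {n : ℕ}

theorem ini_sn (y : Fin n → ℝ) (t : ℝ) : ini (sn y t) = y := by
  funext i
  simp [ini, sn]

theorem la_sn (y : Fin n → ℝ) (t : ℝ) : la (sn y t) = t := by simp [la, sn]

theorem sn_ini_la (x : Fin (n + 1) → ℝ) : sn (ini x) (la x) = x := by
  funext j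
  refine Fin.lastCases ?_ (fun j => ?_) j
  · simp [sn, la]
  · simp [sn, ini]

theorem ext_ini_la {x y : Fin (n + 1) → ℝ} (h1 : ini x = ini y) (h2 : la x = la y) : x = y := by
  rw [← sn_ini_la x, ← sn_ini_la y, h1, h2]

theorem continuous_ini : Continuous (ini (n := n)) :=
  continuous_pi fun _ => continuous_apply _

theorem continuous_la : Continuous (la (n := n)) := continuous_apply _

theorem continuous_sn {Y : Type*} [TopologicalSpace Y] {w : Y → Fin n → ℝ} {z : Y → ℝ}
    (hw : Continuous w) (hz : Continuous z) : Continuous fun y => sn (w y) (z y) := by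
  refine continuous_pi fun j => ?_
  refine Fin.lastCases ?_ (fun j => ?_) j
  · have : (fun a => sn (w a) (z a) (Fin.last n)) = z := by
      funext a
      simp [sn]
    rw [this]
    exact hz
  · have : (fun a => sn (w a) (z a) j.castSucc) = fun a => w a j := by
      funext a
      simp [sn]
    rw [this]
    exact (continuous_apply j).comp hw

theorem ini_zero : ini (0 : Fin (n + 1) → ℝ) = 0 := rfl

theorem la_zero : la (0 : Fin (n + 1) → ℝ) = 0 := rfl

theorem ini_neg (x : Fin (n + 1) → ℝ) : ini (-x) = -ini x := rfl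

theorem la_neg (x : Fin (n + 1) → ℝ) : la (-x) = -la x := rfl

theorem ini_add (x y : Fin (n + 1) → ℝ) : ini (x + y) = ini x + ini y := rfl

theorem la_add (x y : Fin (n + 1) → ℝ) : la (x + y) = la x + la y := rfl

theorem ini_smul (t : ℝ) (x : Fin (n + 1) → ℝ) : ini (t • x) = t • ini x := rfl

theorem la_smul (t : ℝ) (x : Fin (n + 1) → ℝ) : la (t • x) = t * la x := rfl

/-! ### Plain cohomology -/

/-- The complement of the closed negative last half axis. -/
def AP (n : ℕ) : Set (Fin (n + 1) → ℝ) := {x | ini x ≠ 0 ∨ 0 < la x}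

/-- The complement of the closed positive last half axis. -/
def AN (n : ℕ) : Set (Fin (n + 1) → ℝ) := {x | ini x ≠ 0 ∨ la x < 0}

/-- The vectors whose first coordinates do not all vanish. -/
def AI (n : ℕ) : Set (Fin (n + 1) → ℝ) := {x | ini x ≠ 0}

theorem isOpen_AI : IsOpen (AI n) := isOpen_ne.preimage continuous_ini

theorem isOpen_AP : IsOpen (AP n) :=
  (isOpen_ne.preimage continuous_ini).union (isOpen_lt continuous_const continuous_la)

theorem isOpen_AN : IsOpen (AN n) :=
  (isOpen_ne.preimage continuous_ini).union (isOpen_lt continuous_la continuous_const)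

theorem star_AP : StarConvex ℝ (sn 0 1 : Fin (n + 1) → ℝ) (AP n) := by
  intro x hx a b ha hb hab
  by_cases h0 : b = 0
  · right
    rw [la_add, la_smul, la_smul, la_sn, h0]
    have : a = 1 := by linarith
    rw [this]
    norm_num
  · have hb' : 0 < b := lt_of_le_of_ne hb (Ne.symm h0)
    rcases hx with hx | hx
    · left
      rw [ini_add, ini_smul, ini_smul, ini_sn, smul_zero, zero_add]
      exact smul_ne_zero h0 hx
    · right
      rw [la_add, la_smul, la_smul, la_sn]
      have := mul_pos hb' hx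
      linarith

theorem star_AN : StarConvex ℝ (sn 0 (-1) : Fin (n + 1) → ℝ) (AN n) := by
  intro x hx a b ha hb hab
  by_cases h0 : b = 0
  · right
    rw [la_add, la_smul, la_smul, la_sn, h0]
    have : a = 1 := by linarith
    rw [this]
    norm_num
  · have hb' : 0 < b := lt_of_le_of_ne hb (Ne.symm h0)
    rcases hx with hx | hx
    · left
      rw [ini_add, ini_smul, ini_smul, ini_sn, smul_zero, zero_add]
      exact smul_ne_zero h0 hx
    · right
      rw [la_add, la_smul, la_smul, la_sn]
      have := mul_pos hb' (neg_pos.2 hx)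
      linarith

instance : ContractibleSpace (AP n) :=
  star_AP.contractibleSpace ⟨sn 0 1, Or.inr (by rw [la_sn]; exact one_pos)⟩

instance : ContractibleSpace (AN n) :=
  star_AN.contractibleSpace ⟨sn 0 (-1), Or.inr (by rw [la_sn]; norm_num)⟩

/-- The projection of `AI`. -/
def rI : C(AI n, VV n) := ⟨fun x => ⟨ini x.1, x.2⟩, by
  exact (continuous_ini.comp continuous_subtype_val).subtype_mk _⟩

/-- The section of `rI`. -/
def iI : C(VV n, AI n) := ⟨fun y => ⟨sn y.1 0, by
    change ini (sn y.1 0) ≠ 0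
    rw [ini_sn]
    exact y.2⟩, by
  exact (continuous_sn continuous_subtype_val continuous_const).subtype_mk _⟩

theorem rI_iI : (rI (n := n)).comp iI = ContinuousMap.id _ := by
  ext1 y
  exact Subtype.ext (ini_sn _ _)

/-- The homotopy from `iI ∘ rI` to the identity. -/
def hI : ((iI (n := n)).comp rI).Homotopy (ContinuousMap.id _) where
  toFun p := ⟨sn (ini p.2.1) ((p.1 : ℝ) * la p.2.1), by
    change ini (sn (ini p.2.1) _) ≠ 0
    rw [ini_sn]
    exact p.2.2⟩
  continuous_toFun := by
    refine Continuous.subtype_mk ?_ _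
    refine continuous_sn (continuous_ini.comp (continuous_subtype_val.comp continuous_snd)) ?_
    exact (continuous_subtype_val.comp continuous_fst).mul
      (continuous_la.comp (continuous_subtype_val.comp continuous_snd))
  map_zero_left x := by
    apply Subtype.ext
    change sn (ini x.1) (((0 : unitInterval) : ℝ) * la x.1) = sn (ini x.1) 0
    rw [Set.Icc.coe_zero, zero_mul]
  map_one_left x := by
    apply Subtype.ext
    change sn (ini x.1) (((1 : unitInterval) : ℝ) * la x.1) = x.1
    rw [Set.Icc.coe_one, one_mul, sn_ini_la]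

theorem bij_rI (k : ℕ) : Function.Bijective (H.pb (n := k) (A := F2) (rI (n := n))) :=
  H.pb_bijective ⟨hI⟩ (by rw [rI_iI])

/-- The Mayer–Vietoris square. -/
theorem sqV : MVSq (H83.incl (show AI n ⊆ AP n from fun _ h => Or.inl h))
    (H83.incl (show AI n ⊆ AN n from fun _ h => Or.inl h))
    (H83.incl (show AP n ⊆ VV (n + 1) from by
      rintro x hx h0
      rcases hx with h | h
      · exact h (by rw [h0]; rfl)
      · rw [h0] at h
        exact lt_irrefl _ h))
    (H83.incl (show AN n ⊆ VV (n + 1) from by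
      rintro x hx h0
      rcases hx with h | h
      · exact h (by rw [h0]; rfl)
      · rw [h0] at h
        exact lt_irrefl _ h)) := by
  refine MVSq.sub isOpen_AP isOpen_AN _ _ _ _ ?_ ?_
  · intro x hx
    by_cases h : ini x = 0
    · rcases lt_trichotomy (la x) 0 with h1 | h1 | h1
      · exact Or.inr (Or.inr h1)
      · exact absurd (ext_ini_la h h1 : x = 0) hx
      · exact Or.inl (Or.inr h1)
    · exact Or.inl (Or.inl h)
  · rintro x ⟨h1, h2⟩
    by_contra h
    have h' : ini x = 0 := not_not.1 h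
    rcases h1 with h1 | h1
    · exact h1 h'
    · rcases h2 with h2 | h2
      · exact h2 h'
      · exact lt_asymm h1 h2

theorem H_eq_zero_of_isEmpty {X : Type} [TopologicalSpace X] [IsEmpty X] (k : ℕ)
    (u : H k X F2) : u = 0 := by
  obtain ⟨z, rfl⟩ := H.mk_surjective k u
  have : z = 0 := by
    apply Subtype.ext
    funext σ
    exact isEmptyElim (σ (stdSimplex.vertex 0))
  rw [this, map_zero]

instance : IsEmpty (VV 0) := ⟨fun x => x.2 (Subsingleton.elim _ _)⟩

/-- `H^k(ℝ^n ∖ 0) = 0` for `k ≥ n`. -/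
theorem HVV_eq_zero : ∀ (n k : ℕ), n ≤ k → ∀ u : H k (VV n) F2, u = 0 := by
  intro n
  induction n with
  | zero =>
    intro k _ u
    exact H_eq_zero_of_isEmpty k u
  | succ n ih =>
    intro k hk u
    obtain ⟨k, rfl⟩ : ∃ m, k = m + 1 := ⟨k - 1, by omega⟩
    obtain ⟨a, ha⟩ := MV.of_restrict (sqV (n := n)).comm (H.eq_zero_of_contractible k _)
      (H.eq_zero_of_contractible k (H.pb _ u))
    obtain ⟨b, rfl⟩ := (bij_rI k).2 a
    rw [ih k (by omega) b, map_zero] at ha
    exact MV.eq_zero sqV ha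

/-! ### Extension of cochains by zero -/

section Ext

variable {X : Type} [TopologicalSpace X]

open Classical in
/-- The extension by zero of a cochain on a subset. -/
def ext0 (S : Set X) {n : ℕ} (φ : Coch n S F2) : Coch n X F2 :=
  fun σ => if h : InS S σ then φ h.res else 0

theorem ext0_apply {S : Set X} {n : ℕ} (φ : Coch n S F2) {σ : C(Simp n, X)} (h : InS S σ) :
    ext0 S φ σ = φ h.res := dif_pos h

theorem pbC_ext0 (S : Set X) {n : ℕ} (φ : Coch n S F2) : pbC n (MP_904b2a_gt.incl S) (ext0 S φ) = φ := by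
  funext σ
  exact ext0_apply φ (inS_incl_comp σ)

theorem cob_ext0 {S : Set X} {n : ℕ} (φ : Coch n S F2) {σ : C(Simp (n + 1), X)} (h : InS S σ) :
    cob n (ext0 S φ) σ = cob n φ h.res := by
  have e : cob n (ext0 S φ) ((MP_904b2a_gt.incl S).comp h.res) = cob n φ h.res := by
    have := congrFun (pbC_cob n (MP_904b2a_gt.incl S) (ext0 S φ)) h.res
    rw [pbC_ext0] at this
    exact this
  exact e

theorem ext0_mem_inv {τ : C(X, X)} {S : Set X} (hS : ∀ x, τ x ∈ S ↔ x ∈ S) {n : ℕ}
    {φ : Coch n S F2} (h : φ ∈ inv (resMap τ fun x hx => (hS x).2 hx) n) :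
    ext0 S φ ∈ inv τ n := by
  funext σ
  change ext0 S φ (τ.comp σ) = ext0 S φ σ
  by_cases hσ : InS S σ
  · have hσ' : InS S (τ.comp σ) := (inS_comp_iff hS σ).2 hσ
    rw [ext0_apply φ hσ, ext0_apply φ hσ']
    exact congrFun h hσ.res
  · have hσ' : ¬ InS S (τ.comp σ) := fun h' => hσ ((inS_comp_iff hS σ).1 h')
    rw [ext0, ext0, dif_neg hσ, dif_neg hσ']

/-- A simplex lies in one of two disjoint open sets which cover it. -/
theorem inS_or {A B : Set X} (hA : IsOpen A) (hB : IsOpen B) (hAB : Disjoint A B) {n : ℕ}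
    {σ : C(Simp n, X)} (h : InS (A ∪ B) σ) : InS A σ ∨ InS B σ := by
  have hpre : IsPreconnected (range σ) := by
    rw [← image_univ]
    have : PreconnectedSpace (Simp n) := Subtype.preconnectedSpace
      (convex_stdSimplex ℝ (Fin (n + 1))).isPreconnected
    exact isPreconnected_univ.image σ σ.continuous.continuousOn
  have hsub : range σ ⊆ A ∪ B := by
    rintro _ ⟨t, rfl⟩
    exact h t
  rcases isPreconnected_iff_subset_of_disjoint.1 hpre A B hA hB hsub (by
    rw [hAB.inter_eq, inter_empty]) with h1 | h1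
  · exact Or.inl fun t => h1 ⟨t, rfl⟩
  · exact Or.inr fun t => h1 ⟨t, rfl⟩

/-- The invariant cohomology of a free double: `S = S₊ ∪ τ S₊`. -/
theorem free_double {τ : C(X, X)} (hτ : τ.comp τ = ContinuousMap.id X) {S SP : Set X}
    (hSP : IsOpen SP) (hS : ∀ x ∈ S, x ∈ SP ∨ τ x ∈ SP) (hSS : SP ⊆ S)
    (hd : ∀ x ∈ SP, τ x ∉ SP) {k : ℕ} (hv : ∀ u : H k SP F2, u = 0) {z : Coch k X F2}
    (hz : z ∈ inv τ k) (hc : ∀ σ, InS S σ → cob k z σ = 0) :
    ∃ e ∈ invB τ k, ∀ σ, InS S σ → z σ = e σ := by
  classical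
  have h2 : ∀ x, τ (τ x) = x := fun x => congrArg (fun f : C(X, X) => f x) hτ
  have hττ : ∀ {n : ℕ} (σ : C(Simp n, X)), τ.comp (τ.comp σ) = σ := fun σ => by
    rw [← ContinuousMap.comp_assoc, hτ, ContinuousMap.id_comp]
  have hSN : IsOpen (τ ⁻¹' SP) := hSP.preimage τ.continuous
  have hdis : Disjoint SP (τ ⁻¹' SP) := by
    rw [Set.disjoint_left]
    exact hd
  have hcase : ∀ {n : ℕ} (σ : C(Simp n, X)), InS S σ → InS SP σ ∨ InS SP (τ.comp σ) := by
    intro n σ hσ
    exact inS_or hSP hSN hdis (fun t => hS _ (hσ t))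
  have hnot : ∀ {n : ℕ} (σ : C(Simp n, X)), InS SP σ → ¬ InS SP (τ.comp σ) := by
    intro n σ h1 h3
    exact hd _ (h1 (stdSimplex.vertex 0)) (h3 (stdSimplex.vertex 0))
  -- the restriction to `SP`
  have hzc : pbC k (MP_904b2a_gt.incl SP) z ∈ cocycles SP F2 k := by
    change cob k _ = 0
    rw [← pbC_cob]
    funext σ
    exact hc _ (fun t => hSS (inS_incl_comp σ t))
  have hb : pbC k (MP_904b2a_gt.incl SP) z ∈ coboundaries SP F2 k :=
    H.mk_eq_zero.1 (hv (H.mk k ⟨_, hzc⟩))
  cases k with
  | zero =>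
    refine ⟨0, zero_mem _, fun σ hσ => ?_⟩
    have h0 : pbC 0 (MP_904b2a_gt.incl SP) z = 0 := hb
    rcases hcase σ hσ with h | h
    · exact congrFun h0 h.res
    · have h3 : z (τ.comp σ) = 0 := congrFun h0 h.res
      have h4 : z (τ.comp σ) = z σ := congrFun hz σ
      rw [← h4, h3]
      rfl
  | succ k =>
    obtain ⟨ψ, hψ⟩ := hb
    set η : Coch k X F2 := fun σ => if h : InS SP σ then ψ h.res else
      if h' : InS SP (τ.comp σ) then ψ h'.res else 0 with hη
    have η1 : ∀ (σ : C(Simp k, X)) (h : InS SP σ), η σ = ψ h.res := fun σ h => dif_pos h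
    have η2 : ∀ (σ : C(Simp k, X)) (h : InS SP (τ.comp σ)), η σ = ψ h.res := by
      intro σ h
      have hn : ¬ InS SP σ := fun h3 => hnot σ h3 h
      simp only [hη]
      rw [dif_neg hn, dif_pos h]
    have hηi : η ∈ inv τ k := by
      funext σ
      change η (τ.comp σ) = η σ
      by_cases h : InS SP σ
      · have h' : InS SP (τ.comp (τ.comp σ)) := by rw [hττ]; exact h
        rw [η1 σ h, η2 (τ.comp σ) h']
        congr 1
        ext t
        exact h2 _
      · by_cases h' : InS SP (τ.comp σ)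
        · rw [η1 _ h', η2 σ h']
        · have h'' : ¬ InS SP (τ.comp (τ.comp σ)) := by rw [hττ]; exact h
          simp only [hη]
          rw [dif_neg h, dif_neg h', dif_neg h', dif_neg h'']
    refine ⟨cob k η, ⟨η, hηi, rfl⟩, fun σ hσ => ?_⟩
    have key : ∀ σ : C(Simp (k + 1), X), InS SP σ → z σ = cob k η σ := by
      intro σ h
      have e1 : cob k η σ = cob k (ext0 SP ψ) σ :=
        cob_congr (S := SP) (fun σ hσ => by rw [η1 σ hσ, ext0_apply ψ hσ]) h
      rw [e1, cob_ext0 ψ h, hψ]
      rfl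
    rcases hcase σ hσ with h | h
    · exact key σ h
    · have h4 : z (τ.comp σ) = z σ := congrFun hz σ
      have h5 : cob k η (τ.comp σ) = cob k η σ := congrFun (cob_mem_inv hηi) σ
      rw [← h4, ← h5, key _ h]

end Ext

end

end Pool.Agent.Lib.MP_89fcdb_gt.H83
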